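import Mathlib

/-!
The amalgam of a base `X` and a fibre `C`: points are pairs `(x, p)` where `p` assigns an element
of `C` to every `g : X` different from `x`.  (At `g = x` we store the dummy value `c0`.)  The
topology is generated by the preimages of open sets of `X` and by the sets
`{(x, p) | x ≠ g ∧ p g ∈ U}`.  It is compact Hausdorff when `X` and `C` are, and homogeneous when
`X` and `C` are.
-/

set_option autoImplicit false

namespace Pool.Agent.Helper68.TE

open Set Topology Filter

universe u v

/-- A space is homogeneous if every point can be moved to every other point by a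
self-homeomorphism. -/
def Homog (K : Type u) [TopologicalSpace K] : Prop := ∀ x y : K, ∃ h : K ≃ₜ K, h x = y

/-- The amalgam. -/
structure Am (X : Type u) (C : Type v) (c0 : C) where
  base : X
  coord : X → C
  norm : coord base = c0

variable {X : Type u} {C : Type v} {c0 : C}

theorem Am.ext' {y z : Am X C c0} (h1 : y.base = z.base) (h2 : ∀ g, g ≠ y.base →
    y.coord g = z.coord g) : y = z := by
  obtain ⟨x, p, hp⟩ := y
  obtain ⟨x', p', hp'⟩ := z
  obtain rfl : x = x' := h1
  have : p = p' := by
    funext g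
    by_cases hg : g = x
    · rw [hg, hp, hp']
    · exact h2 g hg
  subst this
  rfl

/-- The subbasic set `[g, U]`. -/
def Am.box (g : X) (U : Set C) : Set (Am X C c0) := {y | y.base ≠ g ∧ y.coord g ∈ U}

variable [TopologicalSpace X] [TopologicalSpace C]

instance Am.instTop : TopologicalSpace (Am X C c0) :=
  TopologicalSpace.generateFrom
    ({s | ∃ O : Set X, IsOpen O ∧ s = {y | y.base ∈ O}} ∪
      {s | ∃ (g : X) (U : Set C), IsOpen U ∧ s = Am.box g U})

theorem Am.continuous_base : Continuous (Am.base : Am X C c0 → X) := by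
  rw [continuous_def]
  intro O hO
  exact TopologicalSpace.isOpen_generateFrom_of_mem (Or.inl ⟨O, hO, rfl⟩)

theorem Am.isOpen_box (g : X) {U : Set C} (hU : IsOpen U) :
    IsOpen (Am.box g U : Set (Am X C c0)) :=
  TopologicalSpace.isOpen_generateFrom_of_mem (Or.inr ⟨g, U, hU, rfl⟩)

theorem Am.continuous_iff {Z : Type*} [TopologicalSpace Z] (f : Z → Am X C c0) :
    Continuous f ↔ Continuous (fun z => (f z).base) ∧
      ∀ (g : X) (U : Set C), IsOpen U → IsOpen (f ⁻¹' (Am.box g U)) := by
  constructor
  · intro h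
    exact ⟨Am.continuous_base.comp h, fun g U hU => (Am.isOpen_box g hU).preimage h⟩
  · rintro ⟨h1, h2⟩
    refine continuous_generateFrom_iff.mpr ?_
    rintro s (⟨O, hO, rfl⟩ | ⟨g, U, hU, rfl⟩)
    · exact hO.preimage h1
    · exact h2 g U hU

theorem Am.nhds_le_iff (F : Filter (Am X C c0)) (y : Am X C c0) :
    F ≤ 𝓝 y ↔ Tendsto Am.base F (𝓝 y.base) ∧
      ∀ (g : X) (U : Set C), IsOpen U → y ∈ Am.box g U → Am.box g U ∈ F := by
  constructor
  · intro h
    exact ⟨(Am.continuous_base.tendsto y).mono_left h,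
      fun g U hU hy => h ((Am.isOpen_box g hU).mem_nhds hy)⟩
  · rintro ⟨h1, h2⟩
    rw [TopologicalSpace.nhds_generateFrom]
    refine le_iInf₂ ?_
    rintro s ⟨hys, hs⟩
    rw [le_principal_iff]
    rcases hs with ⟨O, hO, rfl⟩ | ⟨g, U, hU, rfl⟩
    · exact h1 (hO.mem_nhds hys)
    · exact h2 g U hU hys

instance Am.instCompact [CompactSpace X] [CompactSpace C] [T1Space X] :
    CompactSpace (Am X C c0) := by
  classical
  refine ⟨isCompact_iff_ultrafilter_le_nhds.mpr fun F _ => ?_⟩
  let x : X := (F.map Am.base).lim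
  have hx : Tendsto Am.base (F : Filter (Am X C c0)) (𝓝 x) :=
    Ultrafilter.le_nhds_lim (F.map Am.base)
  let q : X → C := fun g => (F.map (fun y : Am X C c0 => y.coord g)).lim
  have hq : ∀ g, Tendsto (fun y : Am X C c0 => y.coord g) F (𝓝 (q g)) := fun g =>
    Ultrafilter.le_nhds_lim (F.map (fun y : Am X C c0 => y.coord g))
  refine ⟨⟨x, fun g => if g = x then c0 else q g, by simp⟩, mem_univ _, ?_⟩
  rw [Am.nhds_le_iff]
  refine ⟨hx, ?_⟩
  rintro g U hU ⟨hg, hgU⟩
  have hg' : x ≠ g := hg
  have h1 : (fun y : Am X C c0 => y.coord g) ⁻¹' U ∈ (F : Filter (Am X C c0)) := by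
    refine (hq g) (hU.mem_nhds ?_)
    have : (if g = x then c0 else q g) ∈ U := hgU
    rwa [if_neg (Ne.symm hg')] at this
  have h2 : Am.base ⁻¹' {g}ᶜ ∈ (F : Filter (Am X C c0)) :=
    hx (isOpen_compl_singleton.mem_nhds hg')
  exact mem_of_superset (inter_mem h1 h2) (fun y hy => ⟨hy.2, hy.1⟩)

instance Am.instT2 [T2Space X] [T2Space C] : T2Space (Am X C c0) := by
  refine ⟨fun y z hyz => ?_⟩
  by_cases hb : y.base = z.base
  · have : ∃ g, g ≠ y.base ∧ y.coord g ≠ z.coord g := by
      by_contra hcon
      push Not at hcon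
      exact hyz (Am.ext' hb hcon)
    obtain ⟨g, hg, hne⟩ := this
    obtain ⟨U, V, hU, hV, hyU, hzV, hd⟩ := t2_separation hne
    refine ⟨Am.box g U, Am.box g V, Am.isOpen_box g hU, Am.isOpen_box g hV,
      ⟨Ne.symm hg, hyU⟩, ⟨fun h => hg (h.symm.trans hb.symm), hzV⟩, ?_⟩
    rw [Set.disjoint_left]
    rintro w ⟨-, hw⟩ ⟨-, hw'⟩
    exact (Set.disjoint_left.mp hd) hw hw'
  · obtain ⟨U, V, hU, hV, hyU, hzV, hd⟩ := t2_separation hb
    exact ⟨Am.base ⁻¹' U, Am.base ⁻¹' V, hU.preimage Am.continuous_base,
      hV.preimage Am.continuous_base, hyU, hzV, hd.preimage _⟩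

/-- A homeomorphism of the base acts on the amalgam. -/
def Am.mapBase (σ : X ≃ₜ X) : Am X C c0 ≃ₜ Am X C c0 where
  toFun y := ⟨σ y.base, fun g => y.coord (σ.symm g), by simp [y.norm]⟩
  invFun y := ⟨σ.symm y.base, fun g => y.coord (σ g), by simp [y.norm]⟩
  left_inv y := by
    refine Am.ext' ?_ ?_
    · simp
    · intro g _
      simp
  right_inv y := by
    refine Am.ext' ?_ ?_
    · simp
    · intro g _
      simp
  continuous_toFun := by
    rw [Am.continuous_iff]
    refine ⟨σ.continuous.comp Am.continuous_base, fun g U hU => ?_⟩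
    have : ((fun y : Am X C c0 => (⟨σ y.base, fun g => y.coord (σ.symm g), by
        simp [y.norm]⟩ : Am X C c0)) ⁻¹' (Am.box g U)) = Am.box (σ.symm g) U := by
      ext y
      simp only [Am.box, mem_preimage, Set.mem_ofPred_eq]
      rw [ne_eq, ne_eq, ← Homeomorph.eq_symm_apply]
    rw [this]
    exact Am.isOpen_box _ hU
  continuous_invFun := by
    rw [Am.continuous_iff]
    refine ⟨σ.symm.continuous.comp Am.continuous_base, fun g U hU => ?_⟩
    have : ((fun y : Am X C c0 => (⟨σ.symm y.base, fun g => y.coord (σ g), by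
        simp [y.norm]⟩ : Am X C c0)) ⁻¹' (Am.box g U)) = Am.box (σ g) U := by
      ext y
      simp only [Am.box, mem_preimage, Set.mem_ofPred_eq]
      rw [ne_eq, ne_eq, Homeomorph.symm_apply_eq]
    rw [this]
    exact Am.isOpen_box _ hU

open Classical in
/-- The function underlying the action of a family of maps of the fibre. -/
noncomputable def Am.act (φ : X → C → C) (y : Am X C c0) : Am X C c0 :=
  ⟨y.base, fun g => if g = y.base then c0 else φ g (y.coord g), by simp⟩

omit [TopologicalSpace X] [TopologicalSpace C] in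
theorem Am.act_coord (φ : X → C → C) (y : Am X C c0) {g : X} (hg : g ≠ y.base) :
    (Am.act φ y).coord g = φ g (y.coord g) := by
  simp [Am.act, hg]

theorem Am.continuous_act (φ : X → C → C) (hφ : ∀ g, Continuous (φ g)) :
    Continuous (Am.act φ : Am X C c0 → Am X C c0) := by
  rw [Am.continuous_iff]
  refine ⟨Am.continuous_base, fun g U hU => ?_⟩
  have : (Am.act φ : Am X C c0 → Am X C c0) ⁻¹' (Am.box g U) = Am.box g (φ g ⁻¹' U) := by
    ext y
    simp only [Am.box, mem_preimage, Set.mem_ofPred_eq]
    refine and_congr_right ?_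
    intro h
    have h' : y.base ≠ g := h
    rw [Am.act_coord φ y (Ne.symm h')]
  rw [this]
  exact Am.isOpen_box _ (hU.preimage (hφ g))

/-- A family of homeomorphisms of the fibre acts on the amalgam. -/
noncomputable def Am.mapFibre (φ : X → C ≃ₜ C) : Am X C c0 ≃ₜ Am X C c0 where
  toFun := Am.act (fun g => φ g)
  invFun := Am.act (fun g => (φ g).symm)
  left_inv y := by
    refine Am.ext' rfl ?_
    intro g hg
    have hg' : g ≠ y.base := hg
    rw [Am.act_coord _ _ (show g ≠ (Am.act (fun g => φ g) y).base from hg'),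
      Am.act_coord _ _ hg']
    simp
  right_inv y := by
    refine Am.ext' rfl ?_
    intro g hg
    have hg' : g ≠ y.base := hg
    rw [Am.act_coord _ _ (show g ≠ (Am.act (fun g => (φ g).symm) y).base from hg'),
      Am.act_coord _ _ hg']
    simp
  continuous_toFun := Am.continuous_act _ fun g => (φ g).continuous
  continuous_invFun := Am.continuous_act _ fun g => (φ g).symm.continuous

theorem Am.homog (hX : Homog X) (hC : Homog C) : Homog (Am X C c0) := by
  intro y z
  obtain ⟨σ, hσ⟩ := hX y.base z.base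
  choose φ hφ using fun g : X => hC ((Am.mapBase σ y).coord g) (z.coord g)
  refine ⟨(Am.mapBase σ).trans (Am.mapFibre φ), ?_⟩
  refine Am.ext' hσ ?_
  intro g hg
  have h1 : g ≠ (Am.mapBase σ y).base := hg
  have : (Am.act (fun g => φ g) (Am.mapBase σ y)).coord g = z.coord g := by
    rw [Am.act_coord _ _ h1]
    exact hφ g
  exact this

end Pool.Agent.Helper68.TE
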