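import Mathlib
import Pool.Agent.Helper68.TE.Amalgam

/-!
A compact Hausdorff space in which every point is the intersection of a decreasing sequence of
clopen sets and which embeds as an open subspace in each of its nonempty open subsets is
homogeneous.
-/

set_option autoImplicit false

namespace Pool.Agent.Helper68.TE

open Set Topology Filter

universe u

/-- Every point is the intersection of a decreasing sequence of clopen sets. -/
def PB (X : Type u) [TopologicalSpace X] : Prop :=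
  ∀ x : X, ∃ W : ℕ → Set X, Antitone W ∧ (∀ n, IsClopen (W n)) ∧ ⋂ n, W n = {x}

variable {X : Type u} [TopologicalSpace X]

theorem exists_subset_of_iInter [CompactSpace X] {x : X} {W : ℕ → Set X} (ha : Antitone W)
    (hc : ∀ n, IsClopen (W n)) (hx : ⋂ n, W n = {x}) {G : Set X} (hG : IsOpen G) (hxG : x ∈ G) :
    ∃ n, W n ⊆ G := by
  refine exists_subset_nhds_of_isCompact' (V := W) ha.directed_ge
    (fun n => (hc n).isClosed.isCompact) (fun n => (hc n).isClosed) ?_
  intro y hy
  rw [hx] at hy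
  rw [hy]
  exact hG.mem_nhds hxG

/-- A decreasing sequence of clopen sets with nonempty shells. -/
structure Shell (x : X) where
  B : ℕ → Set X
  zero : B 0 = univ
  clopen : ∀ n, IsClopen (B n)
  anti : Antitone B
  inter : ∀ y, (∀ n, y ∈ B n) → y = x
  mem : ∀ n, x ∈ B n
  nonempty : ∀ n, (B n \ B (n + 1)).Nonempty

theorem exists_shell (hX : PB X) (hiso : ∀ x : X, ¬ IsOpen {x}) (x : X) : Nonempty (Shell x) := by
  obtain ⟨W, ha, hc, hx⟩ := hX x
  have hxW : ∀ n, x ∈ W n := fun n => by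
    have : x ∈ ⋂ n, W n := by rw [hx]; rfl
    exact mem_iInter.mp this n
  have hstep : ∀ (n : ℕ) (S : {S : Set X // IsClopen S ∧ x ∈ S}),
      ∃ S' : {S : Set X // IsClopen S ∧ x ∈ S}, S'.1 ⊆ S.1 ∧ S'.1 ⊆ W n ∧
        (S.1 \ S'.1).Nonempty := by
    rintro n ⟨S, hS, hxS⟩
    have : ∃ p ∈ S, p ≠ x := by
      by_contra hcon
      push Not at hcon
      apply hiso x
      have : S = {x} := by
        ext p
        constructor
        · intro hp
          exact hcon p hp
        · rintro rfl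
          exact hxS
      rw [← this]
      exact hS.isOpen
    obtain ⟨p, hpS, hpx⟩ := this
    have : ∃ k, p ∉ W k := by
      by_contra hcon
      push Not at hcon
      have : p ∈ ⋂ n, W n := mem_iInter.mpr hcon
      rw [hx] at this
      exact hpx this
    obtain ⟨k, hk⟩ := this
    exact ⟨⟨S ∩ W n ∩ W k, (hS.inter (hc n)).inter (hc k), ⟨hxS, hxW n⟩, hxW k⟩,
      fun y hy => hy.1.1, fun y hy => hy.1.2, p, hpS, fun h => hk h.2⟩
  choose F hF1 hF2 hF3 using hstep
  let B : ℕ → {S : Set X // IsClopen S ∧ x ∈ S} := fun n =>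
    Nat.rec ⟨univ, isClopen_univ, mem_univ x⟩ (fun k S => F k S) n
  have hBs : ∀ n, B (n + 1) = F n (B n) := fun n => rfl
  refine ⟨⟨fun n => (B n).1, rfl, fun n => (B n).2.1, ?_, ?_, fun n => (B n).2.2, ?_⟩⟩
  · refine antitone_nat_of_succ_le (fun n => ?_)
    show (B (n + 1)).1 ⊆ (B n).1
    rw [hBs]
    exact hF1 n (B n)
  · intro y hy
    have : y ∈ ⋂ n, W n := by
      refine mem_iInter.mpr (fun n => hF2 n (B n) ?_)
      have := hy (n + 1)
      rwa [hBs] at this
    rw [hx] at this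
    exact this
  · intro n
    show ((B n).1 \ (B (n + 1)).1).Nonempty
    rw [hBs]
    exact hF3 n (B n)

/-- The shells. -/
def Shell.V {x : X} (S : Shell x) (n : ℕ) : Set X := S.B n \ S.B (n + 1)

theorem Shell.clopenV {x : X} (S : Shell x) (n : ℕ) : IsClopen (S.V n) :=
  (S.clopen n).diff (S.clopen (n + 1))

theorem Shell.eq_of_mem {x : X} (S : Shell x) {n m : ℕ} {y : X} (h : y ∈ S.V n) (h' : y ∈ S.V m) :
    n = m := by
  rcases lt_trichotomy n m with hl | hl | hl
  · exact absurd (S.anti (Nat.succ_le_of_lt hl) h'.1) h.2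
  · exact hl
  · exact absurd (S.anti (Nat.succ_le_of_lt hl) h.1) h'.2

theorem Shell.notMem {x : X} (S : Shell x) (n : ℕ) : x ∉ S.V n := fun h => h.2 (S.mem _)

theorem Shell.cases {x : X} (S : Shell x) (y : X) : y = x ∨ ∃ n, y ∈ S.V n := by
  by_cases h : ∃ n, y ∉ S.B n
  · right
    classical
    have hn := Nat.find_spec h
    have hmin := fun m hm => Nat.find_min h (m := m) hm
    set n := Nat.find h with hn_def
    cases hk : n with
    | zero =>
      exfalso
      rw [hk, S.zero] at hn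
      exact hn (mem_univ y)
    | succ k =>
      refine ⟨k, ?_, ?_⟩
      · by_contra hcon
        exact hmin k (by rw [hk]; exact Nat.lt_succ_self k) hcon
      · rw [hk] at hn
        exact hn
  · left
    push Not at h
    exact S.inter y h

theorem Shell.basis [CompactSpace X] {x : X} (S : Shell x) {G : Set X} (hG : IsOpen G)
    (hx : x ∈ G) : ∃ n, S.B n ⊆ G := by
  refine exists_subset_of_iInter S.anti S.clopen ?_ hG hx
  ext y
  rw [mem_iInter]
  constructor
  · intro h
    exact S.inter y h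
  · rintro rfl
    exact S.mem

theorem clopen_image [CompactSpace X] [T2Space X] {f : X → X} (hf : IsOpenEmbedding f) {S : Set X}
    (hS : IsClopen S) : IsClopen (f '' S) :=
  ⟨(hS.isClosed.isCompact.image hf.continuous).isClosed, hf.isOpenMap _ hS.isOpen⟩

/-- The homogeneity lemma. -/
theorem homog_of_selfsimilar [CompactSpace X] [T2Space X] (hX : PB X)
    (hs : ∀ V : Set X, IsOpen V → V.Nonempty → ∃ e : X → X, IsOpenEmbedding e ∧ range e ⊆ V) :
    Homog X := by
  classical
  intro x y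
  by_cases hiso : ∀ z : X, ¬ IsOpen {z}
  swap
  · push Not at hiso
    obtain ⟨z, hz⟩ := hiso
    obtain ⟨e, he, her⟩ := hs {z} hz (singleton_nonempty z)
    have : x = y := he.injective (by
      rw [her (mem_range_self x), her (mem_range_self y)])
    exact ⟨Homeomorph.refl X, this⟩
  obtain ⟨S⟩ := exists_shell hX hiso x
  obtain ⟨S'⟩ := exists_shell hX hiso y
  choose f hf hfr using fun n => hs (S'.V n) (S'.clopenV n).isOpen (S'.nonempty n)
  choose g hg hgr using fun n => hs (S.V (n + 1)) (S.clopenV (n + 1)).isOpen (S.nonempty (n + 1))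
  let T : ℕ → Set X := fun n =>
    Nat.rec (S.V 0) (fun k A => S.V (k + 1) \ g k '' (S'.V k \ f k '' A)) n
  let R : ℕ → Set X := fun n => S'.V n \ f n '' (T n)
  have hT0 : T 0 = S.V 0 := rfl
  have hTs : ∀ n, T (n + 1) = S.V (n + 1) \ g n '' (R n) := fun n => rfl
  have hTV : ∀ n, T n ⊆ S.V n := by
    intro n
    cases n with
    | zero => exact subset_rfl
    | succ k => exact sdiff_subset
  have hTc : ∀ n, IsClopen (T n) := by
    intro n
    induction n with
    | zero => exact S.clopenV 0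
    | succ k ih =>
      rw [hTs]
      exact (S.clopenV (k + 1)).diff
        (clopen_image (hg k) ((S'.clopenV k).diff (clopen_image (hf k) ih)))
  have hRc : ∀ n, IsClopen (R n) := fun n => (S'.clopenV n).diff (clopen_image (hf n) (hTc n))
  have hRV : ∀ n, R n ⊆ S'.V n := fun n => sdiff_subset
  have hgV : ∀ n a, g n a ∈ S.V (n + 1) := fun n a => hgr n (mem_range_self a)
  have hfV : ∀ n a, f n a ∈ S'.V n := fun n a => hfr n (mem_range_self a)
  let Rel : X → X → Prop := fun a b =>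
    (a = x ∧ b = y) ∨ (∃ n, a ∈ T n ∧ b = f n a) ∨ (∃ n, b ∈ R n ∧ a = g n b)
  have hex : ∀ a, ∃ b, Rel a b := by
    intro a
    rcases S.cases a with h | ⟨n, hn⟩
    · exact ⟨y, Or.inl ⟨h, rfl⟩⟩
    · cases n with
      | zero => exact ⟨f 0 a, Or.inr (Or.inl ⟨0, hn, rfl⟩)⟩
      | succ k =>
        by_cases h : a ∈ g k '' (R k)
        · obtain ⟨b, hb, rfl⟩ := h
          exact ⟨b, Or.inr (Or.inr ⟨k, hb, rfl⟩)⟩
        · exact ⟨f (k + 1) a, Or.inr (Or.inl ⟨k + 1, ⟨hn, h⟩, rfl⟩)⟩
  have hex' : ∀ b, ∃ a, Rel a b := by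
    intro b
    rcases S'.cases b with h | ⟨n, hn⟩
    · exact ⟨x, Or.inl ⟨rfl, h⟩⟩
    · by_cases h : b ∈ f n '' (T n)
      · obtain ⟨a, ha, rfl⟩ := h
        exact ⟨a, Or.inr (Or.inl ⟨n, ha, rfl⟩)⟩
      · exact ⟨g n b, Or.inr (Or.inr ⟨n, ⟨hn, h⟩, rfl⟩)⟩
  have h23 : ∀ (n m : ℕ) (a b : X), a ∈ T n → b ∈ R m → a = g m b → False := by
    intro n m a b ha hb hab
    have h1 : a ∈ S.V n := hTV n ha
    have h2 : a ∈ S.V (m + 1) := hab ▸ hgV m b
    have h3 := S.eq_of_mem h1 h2
    subst h3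
    rw [hTs] at ha
    exact ha.2 ⟨b, hb, hab.symm⟩
  have huniq : ∀ a b b', Rel a b → Rel a b' → b = b' := by
    rintro a b b' (⟨h1, h2⟩ | ⟨n, h1, h2⟩ | ⟨n, h1, h2⟩) (⟨h1', h2'⟩ | ⟨m, h1', h2'⟩ | ⟨m, h1', h2'⟩)
    · rw [h2, h2']
    · exact absurd (h1 ▸ hTV m h1') (S.notMem m)
    · exact absurd (h1 ▸ h2' ▸ hgV m b') (S.notMem (m + 1))
    · exact absurd (h1' ▸ hTV n h1) (S.notMem n)
    · have := S.eq_of_mem (hTV n h1) (hTV m h1')
      subst this
      rw [h2, h2']
    · exact (h23 n m a b' h1 h1' h2').elim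
    · exact absurd (h1' ▸ h2 ▸ hgV n b) (S.notMem (n + 1))
    · exact (h23 m n a b h1' h1 h2).elim
    · have h3 : a ∈ S.V (n + 1) := h2 ▸ hgV n b
      have h4 : a ∈ S.V (m + 1) := h2' ▸ hgV m b'
      have h5 := S.eq_of_mem h3 h4
      have h6 : n = m := by omega
      subst h6
      exact (hg n).injective (h2.symm.trans h2')
  have huniq' : ∀ a a' b, Rel a b → Rel a' b → a = a' := by
    rintro a a' b (⟨h1, h2⟩ | ⟨n, h1, h2⟩ | ⟨n, h1, h2⟩) (⟨h1', h2'⟩ | ⟨m, h1', h2'⟩ | ⟨m, h1', h2'⟩)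
    · rw [h1, h1']
    · exact absurd (h2 ▸ h2' ▸ hfV m a') (S'.notMem m)
    · exact absurd (h2 ▸ hRV m h1') (S'.notMem m)
    · exact absurd (h2' ▸ h2 ▸ hfV n a) (S'.notMem n)
    · have h3 : b ∈ S'.V n := h2 ▸ hfV n a
      have h4 : b ∈ S'.V m := h2' ▸ hfV m a'
      have h5 := S'.eq_of_mem h3 h4
      subst h5
      exact (hf n).injective (h2.symm.trans h2')
    · have h3 : b ∈ S'.V n := h2 ▸ hfV n a
      have h5 := S'.eq_of_mem h3 (hRV m h1')
      subst h5
      exact absurd ⟨a, h1, h2.symm⟩ h1'.2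
    · exact absurd (h2' ▸ hRV n h1) (S'.notMem n)
    · have h3 : b ∈ S'.V m := h2' ▸ hfV m a'
      have h5 := S'.eq_of_mem h3 (hRV n h1)
      subst h5
      exact absurd ⟨a', h1', h2'.symm⟩ h1.2
    · have h5 := S'.eq_of_mem (hRV n h1) (hRV m h1')
      subst h5
      rw [h2, h2']
  choose h hh using hex
  choose k hk using hex'
  let E : X ≃ X := ⟨h, k, fun a => huniq' _ _ (h a) (hk (h a)) (hh a),
    fun b => huniq (k b) _ _ (hh (k b)) (hk b)⟩
  have hhx : h x = y := huniq x _ _ (hh x) (Or.inl ⟨rfl, rfl⟩)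
  have hhT : ∀ n a, a ∈ T n → h a = f n a := fun n a ha =>
    huniq a _ _ (hh a) (Or.inr (Or.inl ⟨n, ha, rfl⟩))
  have hhR : ∀ n b, b ∈ R n → h (g n b) = b := fun n b hb =>
    huniq (g n b) _ _ (hh (g n b)) (Or.inr (Or.inr ⟨n, hb, rfl⟩))
  have hcont : Continuous h := by
    rw [continuous_iff_continuousAt]
    intro a
    rcases hh a with ⟨h1, h2⟩ | ⟨n, h1, h2⟩ | ⟨n, h1, h2⟩
    · rw [h1, ContinuousAt, hhx, tendsto_def]
      intro s hs'
      obtain ⟨G, hGs, hG, hyG⟩ := mem_nhds_iff.mp hs'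
      obtain ⟨n, hn⟩ := S'.basis hG hyG
      refine mem_of_superset ((S.clopen (n + 1)).isOpen.mem_nhds (S.mem (n + 1))) ?_
      intro c hc
      apply hGs
      apply hn
      rcases hh c with ⟨h3, h4⟩ | ⟨m, h3, h4⟩ | ⟨m, h3, h4⟩
      · rw [h4]
        exact S'.mem n
      · rw [h4]
        have h5 : n ≤ m := by
          by_contra hcon
          exact (hTV m h3).2 (S.anti (by omega) hc)
        exact S'.anti h5 (hfV m c).1
      · have h5 : n ≤ m := by
          by_contra hcon
          have h6 : c ∈ S.V (m + 1) := h4 ▸ hgV m (h c)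
          have h7 : c ∈ S.B (m + 1 + 1) := by
            exact S.anti (by omega) hc
          exact h6.2 h7
        exact S'.anti h5 (hRV m h3).1
    · have : h =ᶠ[𝓝 a] f n := by
        filter_upwards [(hTc n).isOpen.mem_nhds h1] with c hc
        exact hhT n c hc
      exact (hf n).continuous.continuousAt.congr this.symm
    · rw [h2]
      rw [← (hg n).continuousAt_iff]
      have : h ∘ g n =ᶠ[𝓝 (h a)] id := by
        filter_upwards [(hRc n).isOpen.mem_nhds h1] with c hc
        exact hhR n c hc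
      exact continuousAt_id.congr this.symm
  exact ⟨Continuous.homeoOfEquivCompactToT2 (f := E) hcont, hhx⟩

end Pool.Agent.Helper68.TE
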