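import Mathlib
import Pool.Agent.Helper68.TE.Swap

/-!
The Alexandroff duplicate `Z` of the Cantor set, and the homogeneity of its countable power.
`Z` is realised as the subspace `{(c, a) | a = ∞ or a = c}` of the product of the Cantor set and
the one-point compactification of the discrete set of size continuum.
-/

set_option autoImplicit false

namespace Pool.Agent.Helper68.TE

open Set Topology Filter Cardinal

universe u v

/-- A decreasing clopen base from a countable family of clopen sets. -/
theorem anti_of_seq {X : Type u} [TopologicalSpace X] {x : X} (W : ℕ → Set X)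
    (hc : ∀ n, IsClopen (W n)) (hx : ⋂ n, W n = {x}) :
    ∃ W' : ℕ → Set X, Antitone W' ∧ (∀ n, IsClopen (W' n)) ∧ ⋂ n, W' n = {x} := by
  refine ⟨fun n => ⋂ i ∈ Finset.range (n + 1), W i, ?_, ?_, ?_⟩
  · intro n m hnm y hy
    rw [mem_iInter₂] at hy ⊢
    intro i hi
    exact hy i (Finset.mem_range.mpr (by have := Finset.mem_range.mp hi; omega))
  · intro n
    exact isClopen_biInter_finset (fun i _ => hc i)
  · rw [← hx]
    ext y
    simp only [mem_iInter]
    constructor
    · intro h n
      exact h n n (Finset.mem_range.mpr (Nat.lt_succ_self n))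
    · intro h n i _
      exact h i

theorem PB.pi {Z : Type u} [TopologicalSpace Z] (hZ : PB Z) : PB (ℕ → Z) := by
  intro x
  choose W _ hc hx using fun n => hZ (x n)
  refine anti_of_seq (fun n => {y | y n.unpair.1 ∈ W n.unpair.1 n.unpair.2}) (fun n => ?_) ?_
  · exact (hc _ _).preimage (continuous_apply n.unpair.1)
  · ext y
    rw [mem_iInter]
    constructor
    · intro h
      funext i
      have : y i ∈ ⋂ n, W i n := by
        refine mem_iInter.mpr (fun n => ?_)
        have h2 : y (Nat.pair i n).unpair.1 ∈ W (Nat.pair i n).unpair.1 (Nat.pair i n).unpair.2 :=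
          h (Nat.pair i n)
        simpa using h2
      rw [hx] at this
      exact this
    · rintro rfl n
      have : y n.unpair.1 ∈ ⋂ m, W n.unpair.1 m := by rw [hx]; rfl
      exact mem_iInter.mp this _

/-- The countable power of a compact space with dense isolated points is self-similar. -/
theorem homog_pi {Z : Type u} [TopologicalSpace Z] [CompactSpace Z] [T2Space Z] (hZ : PB Z)
    (hd : ∀ G : Set Z, IsOpen G → G.Nonempty → ∃ z ∈ G, IsOpen ({z} : Set Z)) :
    Homog (ℕ → Z) := by
  refine homog_of_selfsimilar hZ.pi ?_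
  rintro V hV ⟨x, hx⟩
  obtain ⟨I, U, hU, hIU⟩ := isOpen_pi_iff.mp hV x hx
  have hz : ∀ i : ℕ, ∃ z : Z, IsOpen ({z} : Set Z) ∧ (i ∈ I → z ∈ U i) := by
    intro i
    by_cases hi : i ∈ I
    · obtain ⟨z, hz, hzo⟩ := hd (U i) (hU i hi).1 ⟨x i, (hU i hi).2⟩
      exact ⟨z, hzo, fun _ => hz⟩
    · obtain ⟨z, -, hzo⟩ := hd univ isOpen_univ ⟨x 0, mem_univ _⟩
      exact ⟨z, hzo, fun h => absurd h hi⟩
  choose z hzo hzU using hz
  obtain ⟨N, hN⟩ : ∃ N, ∀ i ∈ I, i < N :=
    ⟨I.sup id + 1, fun i hi => Nat.lt_succ_of_le (Finset.le_sup (f := id) hi)⟩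
  let e : (ℕ → Z) → (ℕ → Z) := fun w i => if i < N then z i else w (i - N)
  have he1 : ∀ w i, i < N → e w i = z i := fun w i hi => if_pos hi
  have he2 : ∀ w i, e w (i + N) = w i := fun w i => by
    show (if i + N < N then z (i + N) else w (i + N - N)) = w i
    rw [if_neg (by omega), Nat.add_sub_cancel]
  have hec : Continuous e := by
    refine continuous_pi (fun i => ?_)
    by_cases hi : i < N
    · have : (fun w => e w i) = fun _ => z i := by
        funext w
        exact he1 w i hi
      rw [this]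
      exact continuous_const
    · have : (fun w => e w i) = fun w => w (i - N) := by
        funext w
        exact if_neg hi
      rw [this]
      exact continuous_apply _
  have hei : Function.Injective e := by
    intro w w' h
    funext i
    rw [← he2 w i, ← he2 w' i, h]
  have hes : ∀ y : ℕ → Z, (∀ i < N, y i = z i) → e (fun j => y (j + N)) = y := by
    intro y h
    funext i
    by_cases hi : i < N
    · exact (he1 (fun j => y (j + N)) i hi).trans (h i hi).symm
    · obtain ⟨j, rfl⟩ : ∃ j, i = j + N := ⟨i - N, by omega⟩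
      exact he2 (fun j => y (j + N)) j
  have her : range e = ⋂ i ∈ Finset.range N, {y : ℕ → Z | y i = z i} := by
    ext y
    simp only [mem_iInter]
    constructor
    · rintro ⟨w, rfl⟩ i hi
      exact he1 w i (Finset.mem_range.mp hi)
    · intro h
      exact ⟨fun j => y (j + N), hes y (fun i hi => h i (Finset.mem_range.mpr hi))⟩
  refine ⟨e, ⟨(hec.isClosedEmbedding hei).isEmbedding, ?_⟩, ?_⟩
  · rw [her]
    refine isOpen_biInter_finset (fun i _ => ?_)
    exact (hzo i).preimage (continuous_apply (A := fun _ : ℕ => Z) i)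
  · rintro _ ⟨w, rfl⟩
    apply hIU
    intro i hi
    rw [he1 w i (hN i hi)]
    exact hzU i hi

/-- The discrete space of size continuum. -/
def DD : Type := ℕ → Bool

instance : TopologicalSpace DD := ⊥
instance : DiscreteTopology DD := ⟨rfl⟩

/-- The identity map from the Cantor set to its discrete copy. -/
def toDD (c : ℕ → Bool) : DD := c

/-- The isolated point of the one-point compactification given by a point of the Cantor set. -/
def up (c : ℕ → Bool) : OnePoint DD := ((toDD c : DD) : OnePoint DD)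

theorem up_injective : Function.Injective up := fun _c _c' h => OnePoint.coe_injective h

theorem up_ne (c : ℕ → Bool) : up c ≠ OnePoint.infty := OnePoint.coe_ne_infty _

theorem exists_up {a : OnePoint DD} (h : a ≠ OnePoint.infty) : ∃ c, a = up c := by
  obtain ⟨d, hd⟩ := OnePoint.ne_infty_iff_exists.mp h
  exact ⟨d, hd.symm⟩

theorem up_clopen (c : ℕ → Bool) : IsClopen ({up c} : Set (OnePoint DD)) := by
  refine ⟨isClosed_singleton, ?_⟩
  have : ({up c} : Set (OnePoint DD)) = (fun d : DD => (d : OnePoint DD)) '' {toDD c} := by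
    rw [image_singleton]
    rfl
  rw [this]
  exact OnePoint.isOpenEmbedding_coe.isOpenMap _ (isOpen_discrete _)

/-- The Alexandroff duplicate of the Cantor set. -/
def ZZ : Type := {p : (ℕ → Bool) × OnePoint DD // p.2 = OnePoint.infty ∨ p.2 = up p.1}

instance : TopologicalSpace ZZ := inferInstanceAs (TopologicalSpace
  {p : (ℕ → Bool) × OnePoint DD // p.2 = OnePoint.infty ∨ p.2 = up p.1})

instance : T2Space ZZ := inferInstanceAs (T2Space
  {p : (ℕ → Bool) × OnePoint DD // p.2 = OnePoint.infty ∨ p.2 = up p.1})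

instance : CompactSpace ZZ := by
  have h : IsClosed {p : (ℕ → Bool) × OnePoint DD | p.2 = OnePoint.infty ∨ p.2 = up p.1} := by
    rw [← isOpen_compl_iff, isOpen_iff_mem_nhds]
    rintro ⟨c, a⟩ h
    have h1 : a ≠ OnePoint.infty := fun h2 => h (Or.inl h2)
    have h2 : a ≠ up c := fun h2 => h (Or.inr h2)
    obtain ⟨d, rfl⟩ := exists_up h1
    have h3 : c ≠ d := fun h => h2 (by rw [h])
    have h4 : IsOpen (({d}ᶜ : Set (ℕ → Bool)) ×ˢ ({up d} : Set (OnePoint DD))) :=
      isOpen_compl_singleton.prod (up_clopen d).isOpen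
    refine mem_of_superset (h4.mem_nhds ⟨h3, rfl⟩) ?_
    rintro ⟨c', a'⟩ ⟨h5, h6⟩ h7
    have h8 : a' = up d := h6
    rcases h7 with h7 | h7
    · exact up_ne d (h8.symm.trans h7)
    · exact h5 (up_injective (h7.symm.trans h8))
  exact isCompact_iff_compactSpace.mp h.isCompact

/-- The isolated points of `ZZ`. -/
def zpt (c : ℕ → Bool) : ZZ := ⟨(c, up c), Or.inr rfl⟩

theorem continuous_fst' : Continuous (fun z : ZZ => z.1.1) :=
  continuous_fst.comp continuous_subtype_val
theorem continuous_snd' : Continuous (fun z : ZZ => z.1.2) :=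
  continuous_snd.comp continuous_subtype_val

theorem zpt_set (c : ℕ → Bool) : ({zpt c} : Set ZZ) =
    (fun z : ZZ => z.1.2) ⁻¹' ({up c} : Set (OnePoint DD)) := by
  ext ⟨⟨c', a⟩, h⟩
  constructor
  · intro h
    rw [h]
    rfl
  · intro h1
    have h1' : a = up c := h1
    subst h1'
    rcases h with h | h
    · exact absurd h (up_ne _)
    · have : c = c' := up_injective h
      subst this
      rfl

theorem zpt_clopen (c : ℕ → Bool) : IsClopen ({zpt c} : Set ZZ) := by
  rw [zpt_set]
  exact (up_clopen c).preimage continuous_snd'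

theorem zpt_injective : Function.Injective zpt := fun _c _c' h =>
  congrArg (fun z : ZZ => z.1.1) h

/-- Decreasing clopen sets at a non-isolated point. -/
def zW (c : ℕ → Bool) (n : ℕ) : Set ZZ :=
  {z | ∀ i ∈ Finset.range n, z.1.1 i = c i} ∩ {zpt c}ᶜ

theorem zW_clopen (c : ℕ → Bool) (n : ℕ) : IsClopen (zW c n) := by
  refine IsClopen.inter ?_ (zpt_clopen c).compl
  have : {z : ZZ | ∀ i ∈ Finset.range n, z.1.1 i = c i} =
      ⋂ i ∈ Finset.range n, {z : ZZ | z.1.1 i ∈ ({c i} : Set Bool)} := by
    ext z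
    simp
  rw [this]
  exact isClopen_biInter_finset (fun i _ => (isClopen_discrete _).preimage
    ((continuous_apply i).comp continuous_fst'))

theorem zW_anti (c : ℕ → Bool) : Antitone (zW c) := by
  intro n m hnm z hz
  exact ⟨fun i hi => hz.1 i (Finset.mem_range.mpr (lt_of_lt_of_le (Finset.mem_range.mp hi) hnm)),
    hz.2⟩

theorem zW_inter (c : ℕ → Bool) (z : ZZ) (hz : z.1.1 = c) (hz' : z.1.2 = OnePoint.infty) :
    ⋂ n, zW c n = {z} := by
  obtain ⟨⟨c', a⟩, h⟩ := z
  obtain rfl : c' = c := hz
  obtain rfl : a = OnePoint.infty := hz'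
  ext ⟨⟨c'', a'⟩, h'⟩
  rw [mem_iInter]
  constructor
  · intro hn
    have h1 : c'' = c' := by
      funext i
      exact (hn (i + 1)).1 i (Finset.mem_range.mpr (Nat.lt_succ_self i))
    subst h1
    rcases h' with h' | h'
    · have h2 : a' = OnePoint.infty := h'
      subst h2
      rfl
    · exfalso
      apply (hn 0).2
      have h2 : a' = up c'' := h'
      subst h2
      rfl
  · intro hn n
    rw [hn]
    refine ⟨fun i _ => rfl, ?_⟩
    intro hcon
    have : (OnePoint.infty : OnePoint DD) = up c' :=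
      congrArg (fun z : ZZ => z.1.2) hcon
    exact up_ne _ this.symm

theorem zz_cases (z : ZZ) : z.1.2 = OnePoint.infty ∨ z = zpt z.1.1 := by
  obtain ⟨⟨c, a⟩, h⟩ := z
  rcases h with h | h
  · exact Or.inl h
  · right
    have h2 : a = up c := h
    subst h2
    rfl

theorem pb_zz : PB ZZ := by
  intro z
  rcases zz_cases z with h | h
  · exact ⟨zW z.1.1, zW_anti _, zW_clopen _, zW_inter _ z rfl h⟩
  · refine ⟨fun _ => {z}, antitone_const, fun _ => ?_, iInter_const _⟩
    rw [h]
    exact zpt_clopen _

theorem dense_zz (G : Set ZZ) (hG : IsOpen G) (hn : G.Nonempty) :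
    ∃ z ∈ G, IsOpen ({z} : Set ZZ) := by
  obtain ⟨z, hz⟩ := hn
  rcases zz_cases z with h | h
  · obtain ⟨n, hn⟩ := exists_subset_of_iInter (zW_anti z.1.1) (zW_clopen _)
      (zW_inter _ z rfl h) hG hz
    let c' : ℕ → Bool := Function.update z.1.1 n (!(z.1.1 n))
    refine ⟨zpt c', hn ⟨?_, ?_⟩, (zpt_clopen c').isOpen⟩
    · intro i hi
      have : i ≠ n := (Finset.mem_range.mp hi).ne
      show c' i = z.1.1 i
      exact Function.update_of_ne this _ _
    · intro hcon
      have h1 : c' = z.1.1 := zpt_injective hcon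
      have h2 : c' n = !(z.1.1 n) := Function.update_self _ _ _
      rw [h1] at h2
      cases h3 : z.1.1 n <;> rw [h3] at h2 <;> exact absurd h2 (by simp)
  · refine ⟨z, hz, ?_⟩
    rw [h]
    exact (zpt_clopen _).isOpen

/-- The homogeneous compact space `ZZ ^ ω` has continuum many disjoint nonempty clopen sets. -/
theorem exists_homog_continuum : ∃ (C : Type) (_ : TopologicalSpace C), CompactSpace C ∧
    T2Space C ∧ Homog C ∧ ∀ ι : Type u, Cardinal.lift.{0} #ι ≤ Cardinal.lift.{u} 𝔠 →
      ∃ (c : ι → C) (O : ι → Set C), (∀ t, IsClopen (O t)) ∧ (∀ t, c t ∈ O t) ∧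
        ∀ s t, s ≠ t → Disjoint (O s) (O t) := by
  refine ⟨ℕ → ZZ, inferInstance, inferInstance, inferInstance, homog_pi pb_zz dense_zz, ?_⟩
  intro ι hι
  have h1 : Cardinal.lift.{0} #ι ≤ Cardinal.lift.{u} #(ℕ → Bool) := by
    simpa using hι
  obtain ⟨j⟩ := Cardinal.lift_mk_le'.mp h1
  refine ⟨fun t _ => zpt (j t), fun t => {x | x 0 ∈ ({zpt (j t)} : Set ZZ)}, fun t => ?_,
    fun t => rfl, fun s t hst => ?_⟩
  · exact (zpt_clopen _).preimage (continuous_apply 0)
  · rw [Set.disjoint_left]
    intro x hx hx'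
    have h2 : x 0 = zpt (j s) := hx
    have h3 : x 0 = zpt (j t) := hx'
    exact hst (j.injective (zpt_injective (h2.symm.trans h3)))

end Pool.Agent.Helper68.TE
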