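import Mathlib
import Pool.Agent.Helper90.TE.Fan
import Pool.Agent.Helper68.TE.Amalgam

/-!
Fans with pairwise disjoint open sets give l-embeddings of `OnePoint ι`; with clopen sets they
give retractions onto `OnePoint ι`.  Fans in the amalgam.  The converse: a t-embedding of
`OnePoint ι` gives `ι` pairwise disjoint nonempty open sets.
-/

set_option autoImplicit false

namespace Pool.Agent.Helper68.TE

open Set Topology Filter Cardinal

universe u v w

/-- `C_p(X)`. -/
abbrev Cp (X : Type u) [TopologicalSpace X] : Type u := {f : X → ℝ // Continuous f}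

/-- `Y` is t-embedded in `X`. -/
def TEmbedded {X : Type u} [TopologicalSpace X] (Y : Set X) : Prop :=
  ∃ φ : Cp Y → Cp X, Continuous φ ∧ ∀ (f : Cp Y) (y : Y), (φ f).1 (y : X) = f.1 y

/-- `Y` is l-embedded in `X`: some continuous extender `C_p(Y) → C_p(X)` is linear. -/
def LEmbedded {X : Type u} [TopologicalSpace X] (Y : Set X) : Prop :=
  ∃ φ : Cp Y → Cp X, Continuous φ ∧ (∀ (f : Cp Y) (y : Y), (φ f).1 (y : X) = f.1 y) ∧
    ∀ (a b : ℝ) (f g h : Cp Y), (∀ y, h.1 y = a * f.1 y + b * g.1 y) →
      ∀ x, (φ h).1 x = a * (φ f).1 x + b * (φ g).1 x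

/-- Existence of a t-embedding of `Z` in `X`. -/
def HasTEmbedding (Z : Type u) [TopologicalSpace Z] (X : Type v) [TopologicalSpace X] : Prop :=
  ∃ e : Z → X, IsEmbedding e ∧ TEmbedded (range e)

/-- Existence of an l-embedding of `Z` in `X`. -/
def HasLEmbedding (Z : Type u) [TopologicalSpace Z] (X : Type v) [TopologicalSpace X] : Prop :=
  ∃ e : Z → X, IsEmbedding e ∧ LEmbedded (range e)

theorem HasLEmbedding.hasTEmbedding {Z : Type u} [TopologicalSpace Z] {X : Type v}
    [TopologicalSpace X] (h : HasLEmbedding Z X) : HasTEmbedding Z X := by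
  obtain ⟨e, he, φ, h1, h2, -⟩ := h
  exact ⟨e, he, φ, h1, h2⟩

/-- A fan with pairwise disjoint open sets. -/
def DFan (ι : Type u) {K : Type v} [TopologicalSpace K] (z : K) : Prop :=
  ∃ (q : ι → K) (U : ι → Set K), (∀ t, IsOpen (U t)) ∧ (∀ t, q t ∈ U t) ∧ (∀ t, z ∉ U t) ∧
    (∀ s t, s ≠ t → Disjoint (U s) (U t)) ∧
    ∀ G : Set K, IsOpen G → z ∈ G → {t | q t ∉ G}.Finite

/-- A fan with pairwise disjoint clopen sets. -/
def ClFan (ι : Type u) {K : Type v} [TopologicalSpace K] (z : K) : Prop :=
  ∃ (q : ι → K) (U : ι → Set K), (∀ t, IsClopen (U t)) ∧ (∀ t, q t ∈ U t) ∧ (∀ t, z ∉ U t) ∧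
    (∀ s t, s ≠ t → Disjoint (U s) (U t)) ∧
    ∀ G : Set K, IsOpen G → z ∈ G → {t | q t ∉ G}.Finite

theorem ClFan.dFan {ι : Type u} {K : Type v} [TopologicalSpace K] {z : K} (h : ClFan ι z) :
    DFan ι z := by
  obtain ⟨q, U, h1, h2, h3, h4, h5⟩ := h
  exact ⟨q, U, fun t => (h1 t).isOpen, h2, h3, h4, h5⟩

/-- The map `OnePoint ι → K` of a fan. -/
def fanMap {ι : Type u} {K : Type v} (z : K) (q : ι → K) : OnePoint ι → K := fun o => o.elim z q

@[simp] theorem fanMap_infty {ι : Type u} {K : Type v} (z : K) (q : ι → K) :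
    fanMap z q OnePoint.infty = z := rfl
@[simp] theorem fanMap_coe {ι : Type u} {K : Type v} (z : K) (q : ι → K) (t : ι) :
    fanMap z q (t : OnePoint ι) = q t := rfl

section
variable {ι : Type u} [TopologicalSpace ι] [DiscreteTopology ι] {K : Type v} [TopologicalSpace K]

theorem fanMap_isEmbedding [T2Space K] {z : K} {q : ι → K} {U : ι → Set K}
    (hqU : ∀ t, q t ∈ U t) (hz : ∀ t, z ∉ U t) (hd : ∀ s t, s ≠ t → Disjoint (U s) (U t))
    (hf : ∀ G : Set K, IsOpen G → z ∈ G → {t | q t ∉ G}.Finite) :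
    IsEmbedding (fanMap z q) := by
  have hc : Continuous (fanMap z q) := by
    rw [OnePoint.continuous_iff_from_discrete]
    rw [tendsto_def]
    intro s hs
    obtain ⟨G, hGs, hG, hzG⟩ := mem_nhds_iff.mp hs
    refine mem_cofinite.mpr ((hf G hG hzG).subset ?_)
    intro t ht hcon
    exact ht (hGs hcon)
  refine (hc.isClosedEmbedding ?_).isEmbedding
  intro a b hab
  induction a using OnePoint.rec with
  | infty =>
    induction b using OnePoint.rec with
    | infty => rfl
    | coe t =>
      exfalso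
      have : z = q t := hab
      exact hz t (this ▸ hqU t)
  | coe s =>
    induction b using OnePoint.rec with
    | infty =>
      exfalso
      have : q s = z := hab
      exact hz s (this ▸ hqU s)
    | coe t =>
      have h1 : q s = q t := hab
      by_contra hne
      have hst : s ≠ t := fun h => hne (by rw [h])
      exact Set.disjoint_left.mp (hd s t hst) (hqU s) (h1 ▸ hqU t)

open Classical in
theorem DFan.hasLEmbedding [CompactSpace K] [T2Space K] {z : K} (h : DFan ι z) :
    HasLEmbedding (OnePoint ι) K := by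
  obtain ⟨q, U, hU, hqU, hz, hd, hf⟩ := h
  have hemb := fanMap_isEmbedding hqU hz hd hf
  refine ⟨fanMap z q, hemb, ?_⟩
  -- Urysohn functions
  have hψ : ∀ t : ι, ∃ ψ : C(K, ℝ), EqOn ψ 0 (U t)ᶜ ∧ EqOn ψ 1 {q t} ∧
      ∀ x, ψ x ∈ Icc (0 : ℝ) 1 := fun t =>
    exists_continuous_zero_one_of_isClosed (hU t).isClosed_compl isClosed_singleton (by
      rw [Set.disjoint_singleton_right]
      exact fun hcon => hcon (hqU t))
  choose ψ hψ0 hψ1 hψI using hψ
  -- the index of a point
  let s : K → OnePoint ι := fun y =>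
    if h : ∃ t, y ∈ U t then ((Classical.choose h : ι) : OnePoint ι) else OnePoint.infty
  have hs1 : ∀ t y, y ∈ U t → s y = (t : OnePoint ι) := by
    intro t y hy
    have hex : ∃ t, y ∈ U t := ⟨t, hy⟩
    have h1 : s y = ((Classical.choose hex : ι) : OnePoint ι) := dif_pos hex
    rw [h1]
    congr 1
    by_contra hne
    exact Set.disjoint_left.mp (hd _ _ hne) (Classical.choose_spec hex) hy
  have hs0 : ∀ y, (∀ t, y ∉ U t) → s y = OnePoint.infty := by
    intro y hy
    exact dif_neg (fun ⟨t, ht⟩ => hy t ht)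
  let w : K → ℝ := fun y => if h : ∃ t, y ∈ U t then ψ (Classical.choose h) y else 0
  have hw1 : ∀ t y, y ∈ U t → w y = ψ t y := by
    intro t y hy
    have hex : ∃ t, y ∈ U t := ⟨t, hy⟩
    have h1 : w y = ψ (Classical.choose hex) y := dif_pos hex
    have h2 : Classical.choose hex = t := by
      by_contra hne
      exact Set.disjoint_left.mp (hd _ _ hne) (Classical.choose_spec hex) hy
    rw [h1, h2]
  have hw0 : ∀ y, (∀ t, y ∉ U t) → w y = 0 := fun y hy => dif_neg (fun ⟨t, ht⟩ => hy t ht)
  let E : OnePoint ι → range (fanMap z q) := fun o => ⟨fanMap z q o, mem_range_self o⟩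
  have hEc : Continuous E := hemb.continuous.subtype_mk _
  let T : (range (fanMap z q) → ℝ) → K → ℝ := fun f y =>
    f (E OnePoint.infty) + (f (E (s y)) - f (E OnePoint.infty)) * w y
  have hTc : ∀ f : Cp (range (fanMap z q)), Continuous (T f.1) := by
    intro f
    have hfin : ∀ ε > 0, {t : ι | ε ≤ |f.1 (E t) - f.1 (E OnePoint.infty)|}.Finite := by
      intro ε hε
      have h1 : Tendsto (fun t : ι => f.1 (E t)) cofinite (𝓝 (f.1 (E OnePoint.infty))) := by
        have h2 : Continuous (fun o => f.1 (E o)) := f.2.comp hEc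
        exact (OnePoint.continuous_iff_from_discrete _).mp h2
      have h3 := h1.eventually (Metric.ball_mem_nhds _ hε)
      rw [eventually_cofinite] at h3
      refine h3.subset ?_
      intro t ht hcon
      rw [Real.dist_eq] at hcon
      exact absurd hcon (not_lt.mpr ht)
    refine continuous_of_uniform_approx_of_continuous ?_
    intro u hu
    obtain ⟨ε, hε, hεu⟩ := Metric.mem_uniformity_dist.mp hu
    let F := (hfin (ε / 2) (by positivity)).toFinset
    refine ⟨fun y => f.1 (E OnePoint.infty) +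
      ∑ t ∈ F, (f.1 (E t) - f.1 (E OnePoint.infty)) * ψ t y, by fun_prop, ?_⟩
    intro y
    apply hεu
    rw [Real.dist_eq]
    beta_reduce
    by_cases hy : ∃ t, y ∈ U t
    · obtain ⟨t, ht⟩ := hy
      have h1 : T f.1 y = f.1 (E OnePoint.infty) +
          (f.1 (E t) - f.1 (E OnePoint.infty)) * ψ t y := by
        show f.1 (E OnePoint.infty) + (f.1 (E (s y)) - f.1 (E OnePoint.infty)) * w y = _
        rw [hs1 t y ht, hw1 t y ht]
      have h0 : ∀ t' ∈ F, t' ≠ t → (f.1 (E t') - f.1 (E OnePoint.infty)) * ψ t' y = 0 := by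
        intro t' _ hne
        have : y ∈ (U t')ᶜ := fun hcon =>
          Set.disjoint_left.mp (hd t' t hne) hcon ht
        have h2 : ψ t' y = 0 := hψ0 t' this
        rw [h2, mul_zero]
      by_cases htF : t ∈ F
      · rw [h1, Finset.sum_eq_single_of_mem t htF h0]
        simpa using hε
      · have h2 : ∑ t' ∈ F, (f.1 (E t') - f.1 (E OnePoint.infty)) * ψ t' y = 0 :=
          Finset.sum_eq_zero (fun t' ht' => h0 t' ht' (fun h => htF (h ▸ ht')))
        rw [h1, h2]
        have h3 : |f.1 (E t) - f.1 (E OnePoint.infty)| < ε / 2 := by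
          by_contra hcon
          exact htF (by
            rw [Set.Finite.mem_toFinset]
            exact not_lt.mp hcon)
        have h4 := hψI t y
        have h5 : |(f.1 (E t) - f.1 (E OnePoint.infty)) * ψ t y| ≤ ε / 2 := by
          rw [abs_mul]
          have h6 : |ψ t y| ≤ 1 := abs_le.mpr ⟨by linarith [h4.1], h4.2⟩
          calc |f.1 (E t) - f.1 (E OnePoint.infty)| * |ψ t y|
              ≤ |f.1 (E t) - f.1 (E OnePoint.infty)| * 1 :=
                mul_le_mul_of_nonneg_left h6 (abs_nonneg _)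
            _ ≤ ε / 2 := by rw [mul_one]; exact h3.le
        have h7 : f.1 (E OnePoint.infty) + (f.1 (E t) - f.1 (E OnePoint.infty)) * ψ t y -
            (f.1 (E OnePoint.infty) + 0) = (f.1 (E t) - f.1 (E OnePoint.infty)) * ψ t y := by
          ring
        rw [h7]
        linarith
    · push Not at hy
      have h1 : T f.1 y = f.1 (E OnePoint.infty) := by
        show f.1 (E OnePoint.infty) + (f.1 (E (s y)) - f.1 (E OnePoint.infty)) * w y = _
        rw [hw0 y hy, mul_zero, add_zero]
      have h2 : ∑ t' ∈ F, (f.1 (E t') - f.1 (E OnePoint.infty)) * ψ t' y = 0 :=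
        Finset.sum_eq_zero (fun t' _ => by
          have : y ∈ (U t')ᶜ := hy t'
          have h3 : ψ t' y = 0 := hψ0 t' this
          rw [h3, mul_zero])
      rw [h1, h2]
      simpa using hε
  refine ⟨fun f => ⟨T f.1, hTc f⟩, ?_, ?_, ?_⟩
  · refine Continuous.subtype_mk ?_ _
    refine continuous_pi (fun y => ?_)
    have h1 : ∀ r, Continuous (fun f : Cp (range (fanMap z q)) => f.1 r) := fun r =>
      (continuous_apply r).comp continuous_subtype_val
    exact (h1 _).add (((h1 _).sub (h1 _)).mul continuous_const)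
  · rintro f ⟨_, o, rfl⟩
    show f.1 (E OnePoint.infty) + (f.1 (E (s (fanMap z q o))) - f.1 (E OnePoint.infty)) *
      w (fanMap z q o) = f.1 (E o)
    induction o using OnePoint.rec with
    | infty =>
      rw [fanMap_infty, hw0 z hz, mul_zero, add_zero]
    | coe t =>
      rw [fanMap_coe, hw1 t _ (hqU t), hs1 t _ (hqU t)]
      have h2 : ψ t (q t) = 1 := hψ1 t rfl
      rw [h2]
      ring
  · intro a b f g h hh x
    show h.1 (E OnePoint.infty) + (h.1 (E (s x)) - h.1 (E OnePoint.infty)) * w x =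
      a * (f.1 (E OnePoint.infty) + (f.1 (E (s x)) - f.1 (E OnePoint.infty)) * w x) +
      b * (g.1 (E OnePoint.infty) + (g.1 (E (s x)) - g.1 (E OnePoint.infty)) * w x)
    rw [hh, hh]
    ring

open Classical in
/-- A clopen fan gives a retraction onto `OnePoint ι`. -/
theorem ClFan.retract [T2Space K] {z : K} (h : ClFan ι z) :
    ∃ (e : OnePoint ι → K) (r : K → OnePoint ι), Continuous e ∧ Continuous r ∧
      ∀ o, r (e o) = o := by
  obtain ⟨q, U, hU, hqU, hz, hd, hf⟩ := h
  let s : K → OnePoint ι := fun y =>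
    if h : ∃ t, y ∈ U t then ((Classical.choose h : ι) : OnePoint ι) else OnePoint.infty
  have hs1 : ∀ t y, y ∈ U t → s y = (t : OnePoint ι) := by
    intro t y hy
    have hex : ∃ t, y ∈ U t := ⟨t, hy⟩
    have h1 : s y = ((Classical.choose hex : ι) : OnePoint ι) := dif_pos hex
    rw [h1]
    congr 1
    by_contra hne
    exact Set.disjoint_left.mp (hd _ _ hne) (Classical.choose_spec hex) hy
  have hs0 : ∀ y, (∀ t, y ∉ U t) → s y = OnePoint.infty := by
    intro y hy
    exact dif_neg (fun ⟨t, ht⟩ => hy t ht)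
  refine ⟨fanMap z q, s, (fanMap_isEmbedding hqU hz hd hf).continuous, ?_, ?_⟩
  · rw [continuous_iff_continuousAt]
    intro y
    by_cases hy : ∃ t, y ∈ U t
    · obtain ⟨t, ht⟩ := hy
      have : s =ᶠ[𝓝 y] fun _ => (t : OnePoint ι) := by
        filter_upwards [(hU t).isOpen.mem_nhds ht] with y' hy'
        exact hs1 t y' hy'
      exact (continuousAt_const.congr this.symm)
    · push Not at hy
      rw [ContinuousAt, hs0 y hy, Tendsto, OnePoint.le_nhds_infty]
      intro S _ hS
      have hSf : S.Finite := hS.finite_of_discrete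
      rw [mem_map]
      have hopen : IsOpen (⋂ t ∈ S, (U t)ᶜ) :=
        hSf.isOpen_biInter (fun t _ => (hU t).compl.isOpen)
      refine mem_of_superset (hopen.mem_nhds (mem_iInter₂.mpr (fun t _ => hy t))) ?_
      intro y' hy'
      rw [mem_iInter₂] at hy'
      by_cases hex : ∃ t, y' ∈ U t
      · obtain ⟨t, ht⟩ := hex
        left
        refine ⟨t, fun htS => hy' t htS ht, (hs1 t y' ht).symm⟩
      · push Not at hex
        right
        exact hs0 y' hex
  · intro o
    induction o using OnePoint.rec with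
    | infty => exact hs0 z hz
    | coe t => exact hs1 t _ (hqU t)

end

end Pool.Agent.Helper68.TE
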