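import Mathlib
import Pool.Agent.Helper68.TE.Ext

/-!
Fans in the amalgam over `ι → Bool`, and the converse direction: a t-embedding of `OnePoint ι`
in a compact Hausdorff space gives `ι` pairwise disjoint nonempty open sets.
-/

set_option autoImplicit false

namespace Pool.Agent.Helper68.TE

open Set Topology Filter Cardinal

universe u v w

section am

variable {ι : Type w} {X : Type u} {C : Type v} {c0 : C} [TopologicalSpace X] [TopologicalSpace C]

open Classical in
/-- The points of the fan. -/
noncomputable def amPt (x : X) (xs : ι → X) (c : ι → C) (c0 : C) (t : ι) : Am X C c0 :=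
  ⟨xs t, fun g => if g = xs t then c0 else if g = x then c t else c0, by simp⟩

omit [TopologicalSpace X] [TopologicalSpace C] in
open Classical in
theorem amPt_mem_box (x : X) (xs : ι → X) (c : ι → C) (t : ι) (hne : xs t ≠ x) {O : Set C}
    (hc : c t ∈ O) : amPt x xs c c0 t ∈ (Am.box x O : Set (Am X C c0)) := by
  refine ⟨hne, ?_⟩
  show (if x = xs t then c0 else if x = x then c t else c0) ∈ O
  rw [if_neg (Ne.symm hne), if_pos rfl]
  exact hc

open Classical in
theorem amPt_finite [T1Space X] (x : X) (xs : ι → X) (c : ι → C)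
    (hf : ∀ G : Set X, IsOpen G → x ∈ G → {t | xs t ∉ G}.Finite)
    (G : Set (Am X C c0)) (hG : IsOpen G) (hx : (⟨x, fun _ => c0, rfl⟩ : Am X C c0) ∈ G) :
    {t | amPt x xs c c0 t ∉ G}.Finite := by
  have h : Tendsto (amPt x xs c c0) cofinite (𝓝 (⟨x, fun _ => c0, rfl⟩ : Am X C c0)) := by
    rw [Tendsto, Am.nhds_le_iff]
    constructor
    · rw [tendsto_map'_iff, tendsto_def]
      intro s hs
      obtain ⟨V, hVs, hV, hxV⟩ := mem_nhds_iff.mp hs
      refine mem_cofinite.mpr ((hf V hV hxV).subset ?_)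
      intro t ht hcon
      exact ht (hVs hcon)
    · rintro g U hU ⟨hg, hgU⟩
      have hg' : x ≠ g := hg
      rw [mem_map]
      refine mem_cofinite.mpr ((hf {g}ᶜ isOpen_compl_singleton hg').subset ?_)
      intro t ht hcon
      apply ht
      have h1 : xs t ≠ g := hcon
      refine ⟨h1, ?_⟩
      show (if g = xs t then c0 else if g = x then c t else c0) ∈ U
      rw [if_neg (Ne.symm h1), if_neg (Ne.symm hg')]
      exact hgU
  exact mem_cofinite.mp (h (hG.mem_nhds hx))

theorem am_dFan [T1Space X] (x : X) (xs : ι → X) (hne : ∀ t, xs t ≠ x)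
    (hf : ∀ G : Set X, IsOpen G → x ∈ G → {t | xs t ∉ G}.Finite)
    (c : ι → C) (O : ι → Set C) (hO : ∀ t, IsOpen (O t)) (hc : ∀ t, c t ∈ O t)
    (hd : ∀ s t, s ≠ t → Disjoint (O s) (O t)) : ∃ z : Am X C c0, DFan ι z := by
  refine ⟨⟨x, fun _ => c0, rfl⟩, amPt x xs c c0, fun t => Am.box x (O t),
    fun t => Am.isOpen_box x (hO t), fun t => amPt_mem_box x xs c t (hne t) (hc t), ?_, ?_, ?_⟩
  · intro t ht
    exact ht.1 rfl
  · intro s t hst
    rw [Set.disjoint_left]
    rintro y ⟨-, hy⟩ ⟨-, hy'⟩
    exact Set.disjoint_left.mp (hd s t hst) hy hy'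
  · intro G hG hx
    exact amPt_finite x xs c hf G hG hx

theorem am_clFan [T1Space X] (x : X) (xs : ι → X)
    (hf : ∀ G : Set X, IsOpen G → x ∈ G → {t | xs t ∉ G}.Finite)
    (D : ι → Set X) (hD : ∀ t, IsClopen (D t)) (hxD : ∀ t, x ∉ D t) (hxsD : ∀ t, xs t ∈ D t)
    (c : ι → C) (O : ι → Set C) (hO : ∀ t, IsClopen (O t)) (hc : ∀ t, c t ∈ O t)
    (hd : ∀ s t, s ≠ t → Disjoint (O s) (O t)) : ∃ z : Am X C c0, ClFan ι z := by
  have hne : ∀ t, xs t ≠ x := fun t h => hxD t (h ▸ hxsD t)
  refine ⟨⟨x, fun _ => c0, rfl⟩, amPt x xs c c0, fun t => Am.base ⁻¹' (D t) ∩ Am.box x (O t),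
    fun t => ?_, fun t => ⟨hxsD t, amPt_mem_box x xs c t (hne t) (hc t)⟩, ?_, ?_, ?_⟩
  · constructor
    · have : (Am.base ⁻¹' (D t) ∩ Am.box x (O t) : Set (Am X C c0)) =
          (Am.base ⁻¹' (D t)ᶜ ∪ Am.box x (O t)ᶜ)ᶜ := by
        ext y
        simp only [Am.box, mem_inter_iff, mem_preimage, Set.mem_ofPred_eq, mem_compl_iff,
          mem_union, not_or, not_not, not_and]
        constructor
        · rintro ⟨h1, h2, h3⟩
          exact ⟨h1, fun _ => h3⟩
        · rintro ⟨h1, h2⟩
          have h3 : y.base ≠ x := fun h => hxD t (h ▸ h1)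
          exact ⟨h1, h3, h2 h3⟩
      show IsClosed (Am.base ⁻¹' (D t) ∩ Am.box x (O t) : Set (Am X C c0))
      rw [this]
      exact (((hD t).compl.isOpen.preimage Am.continuous_base).union
        (Am.isOpen_box x (hO t).compl.isOpen)).isClosed_compl
    · exact ((hD t).isOpen.preimage Am.continuous_base).inter (Am.isOpen_box x (hO t).isOpen)
  · intro t ht
    exact ht.2.1 rfl
  · intro s t hst
    rw [Set.disjoint_left]
    rintro y ⟨-, -, hy⟩ ⟨-, -, hy'⟩
    exact Set.disjoint_left.mp (hd s t hst) hy hy'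
  · intro G hG hx
    exact amPt_finite x xs c hf G hG hx

end am

section cube

/-- The cube `ι → Bool` is homogeneous. -/
theorem homog_cube (ι : Type u) : Homog (ι → Bool) := by
  classical
  intro x y
  let b : Bool ≃ₜ Bool := ⟨Equiv.boolNot, continuous_of_discreteTopology,
    continuous_of_discreteTopology⟩
  refine ⟨Homeomorph.piCongrRight (fun i => if x i = y i then Homeomorph.refl Bool else b), ?_⟩
  funext i
  show (if x i = y i then Homeomorph.refl Bool else b) (x i) = y i
  by_cases h : x i = y i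
  · rw [if_pos h]
    exact h
  · rw [if_neg h]
    show (!x i) = y i
    cases hx : x i <;> cases hy : y i <;> simp_all

open Classical in
/-- The unit vectors of the cube. -/
noncomputable def unitVec {ι : Type u} (t : ι) : ι → Bool := fun s => decide (s = t)

theorem unitVec_finite {ι : Type u} (G : Set (ι → Bool)) (hG : IsOpen G)
    (h0 : (fun _ => false) ∈ G) : {t | unitVec t ∉ G}.Finite := by
  have h : Tendsto (unitVec : ι → ι → Bool) cofinite (𝓝 (fun _ => false)) := by
    rw [tendsto_pi_nhds]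
    intro s
    refine tendsto_const_nhds.congr' ?_
    filter_upwards [(Set.finite_singleton s).compl_mem_cofinite] with t ht
    have : ¬ s = t := fun h => ht h.symm
    simp [unitVec, this]
  exact mem_cofinite.mp (h (hG.mem_nhds h0))

/-- The amalgam over the cube has clopen fans. -/
theorem exists_clFan (ι : Type u) (C : Type v) [TopologicalSpace C] (c0 : C)
    (c : ι → C) (O : ι → Set C) (hO : ∀ t, IsClopen (O t)) (hc : ∀ t, c t ∈ O t)
    (hd : ∀ s t, s ≠ t → Disjoint (O s) (O t)) : ∃ z : Am (ι → Bool) C c0, ClFan ι z := by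
  refine am_clFan (fun _ => false) unitVec (fun G hG h0 => unitVec_finite G hG h0)
    (fun t => {x | x t = true}) (fun t => ?_) (fun t h => ?_) (fun t => ?_) c O hO hc hd
  · exact (isClopen_discrete {true}).preimage (continuous_apply t)
  · exact absurd (show false = true from h) (by simp)
  · show unitVec t t = true
    simp [unitVec]

/-- The amalgam over the cube has fans with disjoint open sets. -/
theorem exists_dFan (ι : Type u) (C : Type v) [TopologicalSpace C] (c0 : C)
    (c : ι → C) (O : ι → Set C) (hO : ∀ t, IsOpen (O t)) (hc : ∀ t, c t ∈ O t)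
    (hd : ∀ s t, s ≠ t → Disjoint (O s) (O t)) : ∃ z : Am (ι → Bool) C c0, DFan ι z := by
  refine am_dFan (fun _ => false) unitVec (fun t h => ?_)
    (fun G hG h0 => unitVec_finite G hG h0) c O hO hc hd
  have := congrFun h t
  simp [unitVec] at this

end cube

section converse

/-- In a Baire space a point-finite family of nonempty open sets indexed by an infinite type gives
a disjoint family of nonempty open sets of the same size. -/
theorem exists_disjoint_of_ptfinite {ι : Type u} [Infinite ι] {K : Type v} [TopologicalSpace K]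
    [BaireSpace K] (U : ι → Set K) (hU : ∀ t, IsOpen (U t)) (hn : ∀ t, (U t).Nonempty)
    (hf : ∀ y, {t | y ∈ U t}.Finite) :
    ∃ W : ι → Set K, (∀ t, IsOpen (W t)) ∧ (∀ t, (W t).Nonempty) ∧
      ∀ s t, s ≠ t → Disjoint (W s) (W t) := by
  choose V hVU hVo hVn hVf using fun t =>
    Helper90.TE.refine_ptfinite U hU hf (U t) (hU t) (hn t)
  -- maximal disjoint subfamily
  let P : Set (Set ι) := {S | ∀ s ∈ S, ∀ t ∈ S, s ≠ t → Disjoint (V s) (V t)}
  obtain ⟨S, hS⟩ := zorn_subset P (by
    intro c hc hchain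
    refine ⟨⋃₀ c, ?_, fun s hs => subset_sUnion_of_mem hs⟩
    rintro s ⟨A, hA, hsA⟩ t ⟨B, hB, htB⟩ hst
    rcases hchain.total hA hB with h | h
    · exact hc hB s (h hsA) t htB hst
    · exact hc hA s hsA t (h htB) hst)
  have hSP : S ∈ P := hS.prop
  have hcov : ∀ t, ∃ s ∈ S, (V t ∩ V s).Nonempty := by
    intro t
    by_contra hcon
    push Not at hcon
    have hins : insert t S ∈ P := by
      rintro a ha b hb hab
      rcases ha with rfl | ha
      · rcases hb with rfl | hb
        · exact absurd rfl hab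
        · rw [Set.disjoint_iff_inter_eq_empty]
          exact hcon b hb
      · rcases hb with rfl | hb
        · rw [Set.disjoint_iff_inter_eq_empty, inter_comm]
          exact hcon a ha
        · exact hSP a ha b hb hab
    have : t ∈ S := hS.le_of_ge hins (subset_insert t S) (mem_insert t S)
    have h2 := hcon t this
    rw [inter_self] at h2
    exact (hVn t).ne_empty h2
  -- counting
  have hcount : #ι ≤ #S * ℵ₀ := by
    have h1 : (univ : Set ι) ⊆ ⋃ s : S, {t | (U t ∩ V s).Nonempty} := by
      intro t _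
      obtain ⟨s, hs, y, hy1, hy2⟩ := hcov t
      exact mem_iUnion.mpr ⟨⟨s, hs⟩, y, hVU t hy1, hy2⟩
    have h2 : #ι ≤ #(⋃ s : S, {t | (U t ∩ V s).Nonempty} : Set ι) := by
      rw [← mk_univ]
      exact mk_le_mk_of_subset h1
    refine h2.trans ((mk_iUnion_le _).trans ?_)
    refine mul_le_mul_right ?_ _
    exact ciSup_le' (fun s => ((hVf s).lt_aleph0).le)
  have hinf : ℵ₀ ≤ #S := by
    by_contra hcon
    have h1 : #S < ℵ₀ := not_le.mp hcon
    haveI : Finite S := lt_aleph0_iff_finite.mp h1
    have h3 : (univ : Set ι).Finite := by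
      refine (Set.finite_iUnion (fun s : S => hVf s)).subset ?_
      intro t _
      obtain ⟨s, hs, y, hy1, hy2⟩ := hcov t
      exact mem_iUnion.mpr ⟨⟨s, hs⟩, y, hVU t hy1, hy2⟩
    exact Set.infinite_univ h3
  have hle : #ι ≤ #S := by
    rwa [mul_aleph0_eq hinf] at hcount
  obtain ⟨j⟩ := (Cardinal.le_def _ _).mp hle
  refine ⟨fun t => V (j t), fun t => hVo _, fun t => hVn _, fun s t hst => ?_⟩
  exact hSP _ (j s).2 _ (j t).2 (fun h => hst (j.injective (Subtype.ext h)))

/-- A t-embedding of `OnePoint ι` in a compact Hausdorff space gives `ι` disjoint open sets. -/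
theorem exists_disjoint_of_hasTEmbedding {ι : Type u} [TopologicalSpace ι] [DiscreteTopology ι]
    [Infinite ι] {K : Type v} [TopologicalSpace K] [CompactSpace K] [T2Space K]
    (h : HasTEmbedding (OnePoint ι) K) :
    ∃ W : ι → Set K, (∀ t, IsOpen (W t)) ∧ (∀ t, (W t).Nonempty) ∧
      ∀ s t, s ≠ t → Disjoint (W s) (W t) := by
  obtain ⟨z, q, U, h1, h2, h3, -⟩ := Helper90.TE.fan_of_hasTEmb h
  exact exists_disjoint_of_ptfinite U h1 (fun t => ⟨_, h2 t⟩) h3

end converse

end Pool.Agent.Helper68.TE
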