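import Mathlib
import Pool.Agent.Helper68.TE.Fans
import Pool.Agent.Helper68.TE.Dup

/-!
The main theorems: `OnePoint ι` is a retract of a homogeneous compact space when `#ι ≤ 𝔠`, and the
equivalence of t-embeddability of `OnePoint ι` with the existence of `ι` disjoint open sets in a
homogeneous compact space.
-/

set_option autoImplicit false

namespace Pool.Agent.Helper68.TE

open Set Topology Filter Cardinal

universe u v w

theorem Homog.pi {J : Type u} {K : J → Type v} [∀ j, TopologicalSpace (K j)]
    (h : ∀ j, Homog (K j)) : Homog (∀ j, K j) := by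
  intro x y
  choose φ hφ using fun j => h j (x j) (y j)
  exact ⟨Homeomorph.piCongrRight φ, funext hφ⟩

/-- A retract is l-embedded. -/
theorem hasLEmbedding_of_retract {Z : Type u} [TopologicalSpace Z] {K : Type v}
    [TopologicalSpace K] (e : Z → K) (r : K → Z) (he : Continuous e) (hr : Continuous r)
    (h : ∀ z, r (e z) = z) : HasLEmbedding Z K := by
  refine ⟨e, Function.LeftInverse.isEmbedding h hr he, ?_⟩
  refine ⟨fun f => ⟨fun x => f.1 ⟨e (r x), mem_range_self _⟩, f.2.comp
    ((he.comp hr).subtype_mk _)⟩, ?_, ?_, ?_⟩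
  · refine Continuous.subtype_mk ?_ _
    exact continuous_pi (fun x => (continuous_apply _).comp continuous_subtype_val)
  · rintro f ⟨_, z, rfl⟩
    show f.1 ⟨e (r (e z)), mem_range_self _⟩ = f.1 ⟨e z, mem_range_self _⟩
    rw [h]
  · intro a b f g k hk x
    exact hk _

/-- `OnePoint ι` is a retract of a homogeneous compact space if `#ι ≤ 𝔠`. -/
theorem retract_onePoint (ι : Type u) [TopologicalSpace ι] [DiscreteTopology ι]
    (hι : #ι ≤ 𝔠) : ∃ (K : Type u) (_ : TopologicalSpace K), CompactSpace K ∧ T2Space K ∧
      Homog K ∧ ∃ (e : OnePoint ι → K) (r : K → OnePoint ι), Continuous e ∧ Continuous r ∧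
        ∀ o, r (e o) = o := by
  obtain ⟨C, _, _, _, hC, hfam⟩ := exists_homog_continuum.{u}
  obtain ⟨c, O, hO, hc, hd⟩ := hfam ι (by simpa using hι)
  by_cases hn : Nonempty ι
  · obtain ⟨t0⟩ := hn
    obtain ⟨z, hz⟩ := exists_clFan ι C (c t0) c O hO hc hd
    refine ⟨Am (ι → Bool) C (c t0), inferInstance, inferInstance, inferInstance,
      Am.homog (homog_cube ι) hC, ?_⟩
    exact hz.retract
  · haveI : IsEmpty ι := not_nonempty_iff.mp hn
    refine ⟨PUnit, inferInstance, inferInstance, inferInstance,
      fun x y => ⟨Homeomorph.refl _, rfl⟩, fun _ => PUnit.unit, fun _ => OnePoint.infty,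
      continuous_const, continuous_const, ?_⟩
    intro o
    exact Subsingleton.elim _ _

/-- Products of one-point compactifications of discrete sets of size at most continuum are
retracts of homogeneous compact spaces. -/
theorem retract_pi {J : Type u} (ι : J → Type u) [∀ j, TopologicalSpace (ι j)]
    [∀ j, DiscreteTopology (ι j)] (hι : ∀ j, #(ι j) ≤ 𝔠) :
    ∃ (K : Type u) (_ : TopologicalSpace K), CompactSpace K ∧ T2Space K ∧
      Homog K ∧ ∃ (e : (∀ j, OnePoint (ι j)) → K) (r : K → ∀ j, OnePoint (ι j)),
        Continuous e ∧ Continuous r ∧ ∀ x, r (e x) = x := by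
  choose K tK cK hK homK e r he hr hre using fun j => retract_onePoint (ι j) (hι j)
  refine ⟨∀ j, K j, inferInstance, inferInstance, inferInstance, Homog.pi homK,
    fun x j => e j (x j), fun k j => r j (k j), ?_, ?_, ?_⟩
  · exact continuous_pi (fun j => (he j).comp (continuous_apply j))
  · exact continuous_pi (fun j => (hr j).comp (continuous_apply j))
  · intro x
    funext j
    exact hre j (x j)

/-- The existence of `ι` disjoint nonempty open sets in a homogeneous compact space gives an
l-embedding of `OnePoint ι` in a homogeneous compact space. -/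
theorem hasLEmbedding_of_disjoint (ι : Type u) [TopologicalSpace ι] [DiscreteTopology ι]
    [Nonempty ι] (C : Type v) [TopologicalSpace C] [CompactSpace C] [T2Space C] (hC : Homog C)
    (O : ι → Set C) (hO : ∀ t, IsOpen (O t)) (hn : ∀ t, (O t).Nonempty)
    (hd : ∀ s t, s ≠ t → Disjoint (O s) (O t)) :
    ∃ (K : Type (max u v)) (_ : TopologicalSpace K), CompactSpace K ∧ T2Space K ∧
      Homog K ∧ HasLEmbedding (OnePoint ι) K := by
  choose c hc using hn
  obtain ⟨t0⟩ := ‹Nonempty ι›
  obtain ⟨z, hz⟩ := exists_dFan ι C (c t0) c O hO hc hd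
  exact ⟨Am (ι → Bool) C (c t0), inferInstance, inferInstance, inferInstance,
    Am.homog (homog_cube ι) hC, hz.hasLEmbedding⟩

end Pool.Agent.Helper68.TE
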