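import Mathlib
import Pool.Agent.Helper68.TE.Main

/-!
The class of retracts of homogeneous compact spaces is closed under products, finite sums and
one-point compactifications of sums of at most continuum many members.
-/

set_option autoImplicit false

namespace Pool.Agent.Helper68.TE

open Set Topology Filter Cardinal

universe u v w

/-- `X` is a retract of a homogeneous compact space. -/
def InR (X : Type u) [TopologicalSpace X] : Prop :=
  ∃ (K : Type u) (_ : TopologicalSpace K), CompactSpace K ∧ T2Space K ∧ Homog K ∧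
    ∃ (e : X → K) (r : K → X), Continuous e ∧ Continuous r ∧ ∀ x, r (e x) = x

theorem InR.pi {J : Type u} {X : J → Type u} [∀ j, TopologicalSpace (X j)]
    (h : ∀ j, InR (X j)) : InR (∀ j, X j) := by
  choose K tK cK hK homK e r he hr hre using h
  refine ⟨∀ j, K j, inferInstance, inferInstance, inferInstance, Homog.pi homK,
    fun x j => e j (x j), fun k j => r j (k j), ?_, ?_, ?_⟩
  · exact continuous_pi (fun j => (he j).comp (continuous_apply j))
  · exact continuous_pi (fun j => (hr j).comp (continuous_apply j))
  · intro x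
    funext j
    exact hre j (x j)

theorem InR.of_retract {X Y : Type u} [TopologicalSpace X] [TopologicalSpace Y] (h : InR X)
    (e' : Y → X) (r' : X → Y) (he' : Continuous e') (hr' : Continuous r')
    (h' : ∀ y, r' (e' y) = y) : InR Y := by
  obtain ⟨K, tK, cK, hK, homK, e, r, he, hr, hre⟩ := h
  refine ⟨K, tK, cK, hK, homK, e ∘ e', r' ∘ r, he.comp he', hr'.comp hr, fun y => ?_⟩
  show r' (r (e (e' y))) = y
  rw [hre, h']

theorem InR.homeo {X Y : Type u} [TopologicalSpace X] [TopologicalSpace Y] (h : InR X)
    (f : X ≃ₜ Y) : InR Y :=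
  h.of_retract f.symm f f.symm.continuous f.continuous (fun y => f.apply_symm_apply y)

theorem Homog.prod {X : Type u} {Y : Type v} [TopologicalSpace X] [TopologicalSpace Y]
    (hX : Homog X) (hY : Homog Y) : Homog (X × Y) := by
  rintro ⟨x, y⟩ ⟨x', y'⟩
  obtain ⟨f, hf⟩ := hX x x'
  obtain ⟨g, hg⟩ := hY y y'
  refine ⟨f.prodCongr g, ?_⟩
  show (f x, g y) = (x', y')
  rw [hf, hg]

theorem homog_bool : Homog Bool := by
  intro x y
  let b : Bool ≃ₜ Bool := ⟨Equiv.boolNot, continuous_of_discreteTopology,
    continuous_of_discreteTopology⟩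
  by_cases h : x = y
  · exact ⟨Homeomorph.refl Bool, h⟩
  · refine ⟨b, ?_⟩
    show (!x) = y
    cases hx : x <;> cases hy : y <;> simp_all

theorem InR.sum {X Y : Type u} [TopologicalSpace X] [TopologicalSpace Y] [Nonempty X] [Nonempty Y]
    (hX : InR X) (hY : InR Y) : InR (X ⊕ Y) := by
  obtain ⟨K, tK, cK, hK, homK, e, r, he, hr, hre⟩ := hX
  obtain ⟨K', tK', cK', hK', homK', e', r', he', hr', hre'⟩ := hY
  obtain ⟨x0⟩ := ‹Nonempty X›
  obtain ⟨y0⟩ := ‹Nonempty Y›
  refine ⟨Bool × K × K', inferInstance, inferInstance, inferInstance,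
    homog_bool.prod (homK.prod homK'),
    Sum.elim (fun x => (true, e x, e' y0)) (fun y => (false, e x0, e' y)),
    fun p => if p.1 = true then Sum.inl (r p.2.1) else Sum.inr (r' p.2.2), ?_, ?_, ?_⟩
  · refine Continuous.sumElim ?_ ?_
    · fun_prop
    · fun_prop
  · refine continuous_prod_of_discrete_left.mpr (fun b => ?_)
    cases b
    · have : (fun p : K × K' => (if (false, p).1 = true then Sum.inl (r (false, p).2.1)
          else Sum.inr (r' (false, p).2.2) : X ⊕ Y)) = fun p => Sum.inr (r' p.2) := by
        funext p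
        simp
      rw [this]
      exact continuous_inr.comp (hr'.comp continuous_snd)
    · have : (fun p : K × K' => (if (true, p).1 = true then Sum.inl (r (true, p).2.1)
          else Sum.inr (r' (true, p).2.2) : X ⊕ Y)) = fun p => Sum.inl (r p.1) := by
        funext p
        simp
      rw [this]
      exact continuous_inl.comp (hr.comp continuous_fst)
  · rintro (x | y)
    · simp [hre]
    · simp [hre']

theorem InR.union {X : Type u} [TopologicalSpace X] [CompactSpace X] [T2Space X] {A B : Set X}
    (hA : IsClosed A) (hB : IsClosed B) (hd : Disjoint A B) (hA' : A.Nonempty) (hB' : B.Nonempty)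
    (h1 : InR A) (h2 : InR B) : InR ↥(A ∪ B) := by
  haveI : Nonempty A := hA'.to_subtype
  haveI : Nonempty B := hB'.to_subtype
  haveI : CompactSpace A := isCompact_iff_compactSpace.mp hA.isCompact
  haveI : CompactSpace B := isCompact_iff_compactSpace.mp hB.isCompact
  let f : A ⊕ B → ↥(A ∪ B) := Sum.elim (fun a => ⟨a, Or.inl a.2⟩) (fun b => ⟨b, Or.inr b.2⟩)
  have hf : Continuous f := by
    refine Continuous.sumElim ?_ ?_
    · exact continuous_subtype_val.subtype_mk _
    · exact continuous_subtype_val.subtype_mk _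
  have hbij : Function.Bijective f := by
    constructor
    · rintro (a | a) (b | b) h
      · have h' : ((f (Sum.inl a) : ↥(A ∪ B)) : X) = f (Sum.inl b) := congrArg Subtype.val h
        have : (a : X) = b := h'
        rw [Subtype.ext this]
      · exfalso
        have h' : ((f (Sum.inl a) : ↥(A ∪ B)) : X) = f (Sum.inr b) := congrArg Subtype.val h
        have : (a : X) = b := h'
        exact Set.disjoint_left.mp hd a.2 (this ▸ b.2)
      · exfalso
        have h' : ((f (Sum.inr a) : ↥(A ∪ B)) : X) = f (Sum.inl b) := congrArg Subtype.val h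
        have : (a : X) = b := h'
        exact Set.disjoint_left.mp hd b.2 (this ▸ a.2)
      · have h' : ((f (Sum.inr a) : ↥(A ∪ B)) : X) = f (Sum.inr b) := congrArg Subtype.val h
        have : (a : X) = b := h'
        rw [Subtype.ext this]
    · rintro ⟨x, hx | hx⟩
      · exact ⟨Sum.inl ⟨x, hx⟩, rfl⟩
      · exact ⟨Sum.inr ⟨x, hx⟩, rfl⟩
  exact (h1.sum h2).homeo (Continuous.homeoOfEquivCompactToT2 (f := Equiv.ofBijective f hbij) hf)

section amalgam

variable {X : Type u} {C : Type v} {c0 : C} [TopologicalSpace X] [TopologicalSpace C]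

theorem Am.continuousAt_coord (g : X) (y : Am X C c0) (hy : y.base ≠ g) :
    ContinuousAt (fun y : Am X C c0 => y.coord g) y := by
  rw [ContinuousAt, tendsto_def]
  intro s hs
  obtain ⟨U, hUs, hU, hyU⟩ := mem_nhds_iff.mp hs
  refine mem_of_superset ((Am.isOpen_box g hU).mem_nhds (show y ∈ Am.box g U from ⟨hy, hyU⟩)) ?_
  rintro z ⟨-, hz⟩
  exact hUs hz

theorem Am.isClopen_cut {D : Set X} (hD : IsClopen D) {g : X} (hg : g ∉ D) {O : Set C}
    (hO : IsClopen O) : IsClopen (Am.base ⁻¹' D ∩ Am.box g O : Set (Am X C c0)) := by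
  constructor
  · have : (Am.base ⁻¹' D ∩ Am.box g O : Set (Am X C c0)) =
        (Am.base ⁻¹' Dᶜ ∪ Am.box g Oᶜ)ᶜ := by
      ext y
      simp only [Am.box, mem_inter_iff, mem_preimage, Set.mem_ofPred_eq, mem_compl_iff,
        mem_union, not_or, not_not, not_and]
      constructor
      · rintro ⟨h1, h2, h3⟩
        exact ⟨h1, fun _ => h3⟩
      · rintro ⟨h1, h2⟩
        have h3 : y.base ≠ g := fun h => hg (h ▸ h1)
        exact ⟨h1, h3, h2 h3⟩
    rw [this]
    exact ((hD.compl.isOpen.preimage Am.continuous_base).union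
      (Am.isOpen_box g hO.compl.isOpen)).isClosed_compl
  · exact (hD.isOpen.preimage Am.continuous_base).inter (Am.isOpen_box g hO.isOpen)

open Classical in
/-- The point over `x1` with coordinate `v` at `g0`. -/
noncomputable def amV (c0 : C) (g0 x1 : X) (v : C) : Am X C c0 :=
  ⟨x1, fun g => if g = x1 then c0 else if g = g0 then v else c0, by simp⟩

omit [TopologicalSpace X] [TopologicalSpace C] in
theorem amV_coord_self (g0 x1 : X) (h : g0 ≠ x1) (v : C) : (amV c0 g0 x1 v).coord g0 = v := by
  simp [amV, h]

omit [TopologicalSpace X] [TopologicalSpace C] in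
theorem amV_coord_other (g0 x1 g : X) (h : g ≠ g0) (v : C) : (amV c0 g0 x1 v).coord g = c0 := by
  simp [amV, h]

theorem continuous_amV (g0 x1 : X) (h : g0 ≠ x1) :
    Continuous (fun v => (amV c0 g0 x1 v : Am X C c0)) := by
  rw [Am.continuous_iff]
  refine ⟨continuous_const, fun g U hU => ?_⟩
  by_cases h1 : x1 = g
  · have : (fun v => (amV c0 g0 x1 v : Am X C c0)) ⁻¹' (Am.box g U) = ∅ := by
      ext v
      constructor
      · rintro ⟨h2, -⟩
        exact absurd h1 h2
      · intro h2
        exact absurd h2 (notMem_empty _)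
    rw [this]
    exact isOpen_empty
  · by_cases h2 : g = g0
    · subst h2
      have : (fun v => (amV c0 g x1 v : Am X C c0)) ⁻¹' (Am.box g U) = U := by
        ext v
        constructor
        · rintro ⟨-, h3⟩
          rwa [amV_coord_self g x1 h] at h3
        · intro h3
          refine ⟨h1, ?_⟩
          rwa [amV_coord_self g x1 h]
      rw [this]
      exact hU
    · by_cases h3 : c0 ∈ U
      · have : (fun v => (amV c0 g0 x1 v : Am X C c0)) ⁻¹' (Am.box g U) = Set.univ := by
          ext v
          refine ⟨fun _ => Set.mem_univ v, fun _ => ⟨h1, ?_⟩⟩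
          rwa [amV_coord_other g0 x1 g h2]
        rw [this]
        exact isOpen_univ
      · have : (fun v => (amV c0 g0 x1 v : Am X C c0)) ⁻¹' (Am.box g U) = ∅ := by
          ext v
          constructor
          · rintro ⟨-, h4⟩
            rw [amV_coord_other g0 x1 g h2] at h4
            exact absurd h4 h3
          · intro h4
            exact absurd h4 (notMem_empty _)
        rw [this]
        exact isOpen_empty

end amalgam

theorem unitVec_self {ι : Type u} (t : ι) : (unitVec t : ι → Bool) t = true := by simp [unitVec]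

theorem unitVec_ne {ι : Type u} {s t : ι} (h : s ≠ t) : (unitVec t : ι → Bool) s = false := by
  simp [unitVec, h]

theorem unitVec_ne_zero {ι : Type u} (t : ι) : (fun _ => false : ι → Bool) ≠ unitVec t := by
  intro h
  have := congrFun h t
  rw [unitVec_self] at this
  exact absurd this (by simp)

theorem unitVec_inj {ι : Type u} {s t : ι} (h : (unitVec s : ι → Bool) = unitVec t) : s = t := by
  by_contra hne
  have := congrFun h s
  rw [unitVec_self, unitVec_ne hne] at this
  exact absurd this (by simp)

open Classical in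
/-- One-point compactifications of sums of at most continuum many members. -/
theorem InR.onePoint {X : Type u} [TopologicalSpace X] [T2Space X] {A : Set X}
    (hA : IsCompact A) {x0 : X} (hx0 : x0 ∈ A) {ι : Type u} (hι : #ι ≤ 𝔠) (E : ι → Set X)
    (hE : ∀ i, IsClopen (E i)) (hn : ∀ i, (E i).Nonempty)
    (hd : ∀ i j, i ≠ j → Disjoint (E i) (E j)) (hx0E : ∀ i, x0 ∉ E i)
    (hEA : ∀ i, E i ⊆ A) (hcov : ∀ x ∈ A, x ≠ x0 → ∃ i, x ∈ E i)
    (hR : ∀ i, InR (E i)) : InR A := by
  haveI : CompactSpace A := isCompact_iff_compactSpace.mp hA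
  by_cases hne : Nonempty ι
  swap
  · haveI : Subsingleton A := by
      refine ⟨fun a b => ?_⟩
      have h : ∀ a : A, (a : X) = x0 := by
        intro a
        by_contra h
        obtain ⟨i, -⟩ := hcov a a.2 h
        exact hne ⟨i⟩
      exact Subtype.ext ((h a).trans (h b).symm)
    exact ⟨PUnit, inferInstance, inferInstance, inferInstance,
      fun x y => ⟨Homeomorph.refl _, rfl⟩, fun _ => PUnit.unit, fun _ => ⟨x0, hx0⟩,
      continuous_const, continuous_const, fun a => Subsingleton.elim _ _⟩
  obtain ⟨t0⟩ := hne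
  choose K tK cK hK homK e r he hr hre using hR
  obtain ⟨C0, tC0, cC0, hC0, homC0, hfam⟩ := exists_homog_continuum.{u}
  obtain ⟨c, O, hO, hc, hdO⟩ := hfam ι (by simpa using hι)
  choose x hx using hn
  let k0 : ∀ i, K i := fun i => e i ⟨x i, hx i⟩
  let C := C0 × (∀ i, K i)
  have homC : Homog C := homC0.prod (Homog.pi homK)
  let c0 : C := (c t0, k0)
  let zero : ι → Bool := fun _ => false
  let M := Am (ι → Bool) C c0
  let z0 : M := ⟨zero, fun _ => c0, rfl⟩
  let OO : ι → Set C := fun i => O i ×ˢ (univ : Set (∀ i, K i))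
  have hOO : ∀ i, IsClopen (OO i) := fun i => (hO i).prod isClopen_univ
  let W : ι → Set (ι → Bool) := fun i => {y | y i = true}
  have hW : ∀ i, IsClopen (W i) := fun i =>
    (isClopen_discrete {true}).preimage (continuous_apply i)
  have h0W : ∀ i, zero ∉ W i := fun i h => absurd (show false = true from h) (by simp)
  let D : ι → Set M := fun i => Am.base ⁻¹' (W i) ∩ Am.box zero (OO i)
  have hD : ∀ i, IsClopen (D i) := fun i => Am.isClopen_cut (hW i) (h0W i) (hOO i)
  have hDd : ∀ i j y, y ∈ D i → y ∈ D j → i = j := by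
    intro i j y hi hj
    by_contra hij
    exact Set.disjoint_left.mp (hdO i j hij) hi.2.2.1 hj.2.2.1
  -- the embedding
  let v : ∀ i, E i → C := fun i a => (c i, Function.update k0 i (e i a))
  have hv : ∀ i, Continuous (v i) := fun i =>
    continuous_const.prodMk (continuous_const.update i (he i))
  let s : A → M := fun a => if h : ∃ i, (a : X) ∈ E i then
    amV c0 zero (unitVec (Classical.choose h)) (v _ ⟨a, Classical.choose_spec h⟩) else z0
  have hs1 : ∀ (i : ι) (a : A) (ha : (a : X) ∈ E i), s a = amV c0 zero (unitVec i) (v i ⟨a, ha⟩) := by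
    intro i a ha
    have hex : ∃ i, (a : X) ∈ E i := ⟨i, ha⟩
    have h1 : s a = amV c0 zero (unitVec (Classical.choose hex))
      (v _ ⟨a, Classical.choose_spec hex⟩) := dif_pos hex
    have h2 : ∀ (j : ι) (hj : (a : X) ∈ E j), j = i →
        amV c0 zero (unitVec j) (v j ⟨a, hj⟩) = amV c0 zero (unitVec i) (v i ⟨a, ha⟩) := by
      rintro j hj rfl
      rfl
    rw [h1]
    refine h2 _ _ ?_
    by_contra hne
    exact Set.disjoint_left.mp (hd _ _ hne) (Classical.choose_spec hex) ha
  have hs0 : ∀ a : A, (a : X) = x0 → s a = z0 := by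
    intro a ha
    refine dif_neg ?_
    rintro ⟨i, hi⟩
    exact hx0E i (ha ▸ hi)
  have hsc : Continuous s := by
    rw [continuous_iff_continuousAt]
    intro a
    by_cases ha : (a : X) = x0
    · rw [ContinuousAt, hs0 a ha, Tendsto, Am.nhds_le_iff]
      constructor
      · rw [tendsto_map'_iff, tendsto_pi_nhds]
        intro i
        refine tendsto_const_nhds.congr' ?_
        have hU : IsOpen {b : A | (b : X) ∈ (E i)ᶜ} :=
          (hE i).compl.isOpen.preimage continuous_subtype_val
        filter_upwards [hU.mem_nhds (show (a : X) ∈ (E i)ᶜ by rw [ha]; exact hx0E i)] with b hb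
        by_cases hb0 : (b : X) = x0
        · show false = (s b).base i
          rw [hs0 b hb0]
        · obtain ⟨j, hj⟩ := hcov b b.2 hb0
          show false = (s b).base i
          rw [hs1 j b hj]
          have hij : i ≠ j := fun h => hb (h ▸ hj)
          exact (unitVec_ne hij).symm
      · rintro g U hU ⟨hg, hgU⟩
        have hg' : zero ≠ g := hg
        have hc0U : c0 ∈ U := hgU
        rw [mem_map]
        by_cases hgi : ∃ i, g = unitVec i
        · obtain ⟨i, rfl⟩ := hgi
          have hU' : IsOpen {b : A | (b : X) ∈ (E i)ᶜ} :=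
            (hE i).compl.isOpen.preimage continuous_subtype_val
          refine mem_of_superset
            (hU'.mem_nhds (show (a : X) ∈ (E i)ᶜ by rw [ha]; exact hx0E i)) ?_
          intro b hb
          by_cases hb0 : (b : X) = x0
          · show s b ∈ Am.box (unitVec i) U
            rw [hs0 b hb0]
            exact ⟨hg, hgU⟩
          · obtain ⟨j, hj⟩ := hcov b b.2 hb0
            show s b ∈ Am.box (unitVec i) U
            rw [hs1 j b hj]
            refine ⟨fun h => ?_, ?_⟩
            · have : j = i := unitVec_inj h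
              subst this
              exact hb hj
            · rw [amV_coord_other _ _ _ (Ne.symm hg')]
              exact hc0U
        · refine univ_mem' ?_
          intro b
          by_cases hb0 : (b : X) = x0
          · show s b ∈ Am.box g U
            rw [hs0 b hb0]
            exact ⟨hg, hgU⟩
          · obtain ⟨j, hj⟩ := hcov b b.2 hb0
            show s b ∈ Am.box g U
            rw [hs1 j b hj]
            refine ⟨fun h => hgi ⟨j, h.symm⟩, ?_⟩
            rw [amV_coord_other _ _ _ (Ne.symm hg')]
            exact hc0U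
    · obtain ⟨i, hi⟩ := hcov a a.2 ha
      let S : Set A := {b : A | (b : X) ∈ E i}
      have hopen : IsOpen S := (hE i).isOpen.preimage continuous_subtype_val
      have hemb : IsOpenEmbedding (Subtype.val : S → A) := hopen.isOpenEmbedding_subtypeVal
      have h1 : ContinuousAt (s ∘ (Subtype.val : S → A)) ⟨a, hi⟩ := by
        have h2 : s ∘ (Subtype.val : S → A) =
            fun b : S => amV c0 zero (unitVec i) (v i ⟨((b : A) : X), b.2⟩) := by
          funext b
          exact hs1 i b b.2
        rw [h2]
        refine Continuous.continuousAt ?_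
        refine (continuous_amV zero (unitVec i) (unitVec_ne_zero i)).comp ((hv i).comp ?_)
        exact (continuous_subtype_val.comp continuous_subtype_val).subtype_mk _
      exact (hemb.continuousAt_iff (x := ⟨a, hi⟩)).mp h1
  -- the retraction
  let ρ : M → A := fun y => if h : ∃ i, y ∈ D i then
    ⟨(r (Classical.choose h) ((y.coord zero).2 (Classical.choose h)) : X),
      hEA _ (r (Classical.choose h) ((y.coord zero).2 (Classical.choose h))).2⟩ else ⟨x0, hx0⟩
  have hρ1 : ∀ i y, y ∈ D i → ρ y = ⟨(r i ((y.coord zero).2 i) : X), hEA _ (r i _).2⟩ := by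
    intro i y hy
    have hex : ∃ i, y ∈ D i := ⟨i, hy⟩
    have h1 : ρ y = ⟨(r (Classical.choose hex) ((y.coord zero).2 (Classical.choose hex)) : X),
      hEA _ (r (Classical.choose hex) ((y.coord zero).2 (Classical.choose hex))).2⟩ := dif_pos hex
    rw [h1]
    have h2 : Classical.choose hex = i := hDd _ _ y (Classical.choose_spec hex) hy
    have h3 : ∀ j, j = i → (⟨(r j ((y.coord zero).2 j) : X), hEA _ (r j _).2⟩ : A) =
        ⟨(r i ((y.coord zero).2 i) : X), hEA _ (r i _).2⟩ := by
      rintro j rfl
      rfl
    exact h3 _ h2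
  have hρ0 : ∀ y, (∀ i, y ∉ D i) → ρ y = ⟨x0, hx0⟩ := by
    intro y hy
    exact dif_neg (fun ⟨i, hi⟩ => hy i hi)
  have hρc : Continuous ρ := by
    rw [continuous_iff_continuousAt]
    intro y
    by_cases hy : ∃ i, y ∈ D i
    · obtain ⟨i, hi⟩ := hy
      have h1 : ρ =ᶠ[𝓝 y] fun y => ⟨(r i ((y.coord zero).2 i) : X), hEA _ (r i _).2⟩ := by
        filter_upwards [(hD i).isOpen.mem_nhds hi] with y' hy'
        exact hρ1 i y' hy'
      refine ContinuousAt.congr ?_ h1.symm
      have h2 : ContinuousAt (fun y : M => y.coord zero) y :=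
        Am.continuousAt_coord zero y hi.2.1
      have h3 : ContinuousAt (fun y : M => r i ((y.coord zero).2 i)) y := by
        have h4 : Continuous (fun p : C => r i (p.2 i)) :=
          (hr i).comp ((continuous_apply i).comp continuous_snd)
        exact h4.continuousAt.comp h2
      have h5 : Continuous (fun p : E i => (⟨(p : X), hEA _ p.2⟩ : A)) :=
        continuous_subtype_val.subtype_mk _
      exact h5.continuousAt.comp h3
    · push Not at hy
      rw [ContinuousAt, hρ0 y hy, tendsto_def]
      intro G hG
      obtain ⟨G', hG'G, hG', hx0G'⟩ := mem_nhds_iff.mp hG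
      -- finitely many pieces are not contained in `G'`
      have hfin : {i | ¬ ∀ a : A, (a : X) ∈ E i → a ∈ G'}.Finite := by
        have hcomp : IsCompact (G'ᶜ : Set A) := hG'.isClosed_compl.isCompact
        obtain ⟨F, hF⟩ := hcomp.elim_finite_subcover (fun i => {b : A | (b : X) ∈ E i})
          (fun i => (hE i).isOpen.preimage continuous_subtype_val) (by
            intro b hb
            have hb0 : (b : X) ≠ x0 := by
              intro h
              apply hb
              have : b = ⟨x0, hx0⟩ := Subtype.ext h
              rw [this]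
              exact hx0G'
            obtain ⟨i, hi⟩ := hcov b b.2 hb0
            exact mem_iUnion.mpr ⟨i, hi⟩)
        refine F.finite_toSet.subset ?_
        intro i hi
        have hi' : ¬ ∀ a : A, (a : X) ∈ E i → a ∈ G' := hi
        push Not at hi'
        obtain ⟨a, haE, haG⟩ := hi'
        obtain ⟨j, hj, haj⟩ := mem_iUnion₂.mp (hF haG)
        by_contra hcon
        have hij : i ≠ j := fun h => hcon (h ▸ hj)
        exact Set.disjoint_left.mp (hd i j hij) haE haj
      have hopen : IsOpen (⋂ i ∈ hfin.toFinset, (D i)ᶜ) :=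
        isOpen_biInter_finset (fun i _ => (hD i).compl.isOpen)
      refine mem_of_superset (hopen.mem_nhds (mem_iInter₂.mpr (fun i _ => hy i))) ?_
      intro y' hy'
      rw [mem_iInter₂] at hy'
      apply hG'G
      by_cases hex : ∃ i, y' ∈ D i
      · obtain ⟨i, hi⟩ := hex
        rw [hρ1 i y' hi]
        by_contra hcon
        have hi2 : i ∈ hfin.toFinset := by
          rw [Set.Finite.mem_toFinset]
          intro hall
          exact hcon (hall _ (r i ((y'.coord zero).2 i)).2)
        exact hy' i hi2 hi
      · push Not at hex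
        rw [hρ0 y' hex]
        exact hx0G'
  refine ⟨M, inferInstance, inferInstance, inferInstance, Am.homog (homog_cube ι) homC,
    s, ρ, hsc, hρc, ?_⟩
  intro a
  by_cases ha : (a : X) = x0
  · rw [hs0 a ha, hρ0 z0 (fun i hi => h0W i hi.1)]
    exact Subtype.ext ha.symm
  · obtain ⟨i, hi⟩ := hcov a a.2 ha
    rw [hs1 i a hi]
    have h1 : (amV c0 zero (unitVec i) (v i ⟨a, hi⟩) : M).coord zero = v i ⟨a, hi⟩ :=
      amV_coord_self zero (unitVec i) (unitVec_ne_zero i) _
    have h2 : (amV c0 zero (unitVec i) (v i ⟨a, hi⟩) : M) ∈ D i := by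
      refine ⟨unitVec_self i, Ne.symm (unitVec_ne_zero i), ?_⟩
      rw [h1]
      exact ⟨hc i, mem_univ _⟩
    rw [hρ1 i _ h2]
    apply Subtype.ext
    show (r i (((amV c0 zero (unitVec i) (v i ⟨a, hi⟩) : M).coord zero).2 i) : X) = a
    rw [h1]
    show (r i (Function.update k0 i (e i ⟨a, hi⟩) i) : X) = a
    rw [Function.update_self, hre]

end Pool.Agent.Helper68.TE
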