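import Mathlib
import Pool.Agent.Helper68.TE.Sum

/-!
Scattered compact spaces `X` of size at most continuum such that `X` minus a point is always
paracompact are retracts of homogeneous compact spaces.
-/

set_option autoImplicit false

namespace Pool.Agent.Helper68.TE

open Set Topology Filter Cardinal

universe u v w

/-- Every nonempty subset has a relatively isolated point. -/
def Scattered (X : Type u) [TopologicalSpace X] : Prop :=
  ∀ S : Set X, S.Nonempty → ∃ p ∈ S, ∃ U : Set X, IsOpen U ∧ U ∩ S = {p}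

theorem Scattered.totallyDisconnected {X : Type u} [TopologicalSpace X] [T1Space X]
    (h : Scattered X) : TotallyDisconnectedSpace X := by
  refine ⟨fun S _ hS => ?_⟩
  by_contra hcon
  rw [Set.not_subsingleton_iff] at hcon
  obtain ⟨p, hp, U, hU, hUS⟩ := h S hcon.nonempty
  obtain ⟨q, hq, hqp⟩ := hcon.exists_ne p
  have h1 : (S ∩ (U ∩ {p}ᶜ)).Nonempty := by
    refine hS U {p}ᶜ hU isOpen_compl_singleton ?_ ?_ ?_
    · intro s hs
      by_cases hsp : s = p
      · left
        have : p ∈ U ∩ S := by rw [hUS]; rfl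
        rw [hsp]
        exact this.1
      · right
        exact hsp
    · refine ⟨p, hp, ?_⟩
      have : p ∈ U ∩ S := by rw [hUS]; rfl
      exact this.1
    · exact ⟨q, hq, hqp⟩
  obtain ⟨s, hs, hsU, hsp⟩ := h1
  have : s ∈ U ∩ S := ⟨hsU, hs⟩
  rw [hUS] at this
  exact hsp this

/-- A paracompact space with a base of compact open sets is a sum of compact open sets. -/
theorem exists_partition {Y : Type u} [TopologicalSpace Y] [T2Space Y] [ParacompactSpace Y]
    (hb : ∀ (y : Y) (G : Set Y), IsOpen G → y ∈ G → ∃ C : Set Y, IsOpen C ∧ IsCompact C ∧ y ∈ C ∧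
      C ⊆ G) :
    ∃ W : Y → Set Y, (∀ i, IsOpen (W i)) ∧ (∀ i, IsCompact (W i)) ∧
      (∀ i j, i ≠ j → Disjoint (W i) (W j)) ∧ ∀ y, ∃ i, y ∈ W i := by
  choose C hCo hCc hyC _ using fun y : Y => hb y univ isOpen_univ (mem_univ y)
  obtain ⟨V, hVo, hVu, hVf, hVC⟩ := precise_refinement C hCo (by
    rw [Set.eq_univ_iff_forall]
    exact fun y => mem_iUnion.mpr ⟨y, hyC y⟩)
  obtain ⟨F, hFu, hFo, hFV⟩ := exists_iUnion_eq_closure_subset hVo
    (fun y => hVf.point_finite y) hVu
  have hN : ∀ i, ∃ N : Set Y, IsOpen N ∧ IsCompact N ∧ closure (F i) ⊆ N ∧ N ⊆ V i := by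
    intro i
    have hcomp : IsCompact (closure (F i)) :=
      (hCc i).of_isClosed_subset isClosed_closure ((hFV i).trans (hVC i))
    choose B hBo hBc hyB hBV using fun y : closure (F i) => hb y (V i) (hVo i) (hFV i y.2)
    obtain ⟨T, hT⟩ := hcomp.elim_finite_subcover (fun y : closure (F i) => B y) hBo
      (fun y hy => mem_iUnion.mpr ⟨⟨y, hy⟩, hyB ⟨y, hy⟩⟩)
    refine ⟨⋃ y ∈ T, B y, isOpen_biUnion (fun y _ => hBo y), T.isCompact_biUnion (fun y _ => hBc y),
      hT, iUnion₂_subset (fun y _ => hBV y)⟩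
  choose N hNo hNc hFN hNV using hN
  have hNf : LocallyFinite N := hVf.subset hNV
  have hNu : ∀ y, ∃ i, y ∈ N i := by
    intro y
    have : y ∈ ⋃ i, F i := by rw [hFu]; exact mem_univ y
    obtain ⟨i, hi⟩ := mem_iUnion.mp this
    exact ⟨i, hFN i (subset_closure hi)⟩
  let W : Y → Set Y := fun i => N i \ ⋃ j ∈ {j : Y | WellOrderingRel j i}, N j
  refine ⟨W, ?_, ?_, ?_, ?_⟩
  · intro i
    have h1 : IsClosed (⋃ j ∈ {j : Y | WellOrderingRel j i}, N j) := by
      have h2 : (⋃ j ∈ {j : Y | WellOrderingRel j i}, N j) =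
          ⋃ j : {j : Y | WellOrderingRel j i}, N j := by
        rw [biUnion_eq_iUnion]
      rw [h2]
      exact (hNf.comp_injective Subtype.val_injective).isClosed_iUnion
        (fun j => (hNc _).isClosed)
    exact (hNo i).sdiff h1
  · intro i
    exact (hNc i).diff (isOpen_biUnion (fun j _ => hNo j))
  · intro i j hij
    rw [Set.disjoint_left]
    rintro y ⟨h1, h2⟩ ⟨h3, h4⟩
    rcases trichotomous_of WellOrderingRel i j with h | h | h
    · exact h4 (mem_biUnion (show i ∈ {i : Y | WellOrderingRel i j} from h) h1)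
    · exact hij h
    · exact h2 (mem_biUnion (show j ∈ {j : Y | WellOrderingRel j i} from h) h3)
  · intro y
    have hwf : WellFounded (WellOrderingRel : Y → Y → Prop) := IsWellFounded.wf
    obtain ⟨i, hi, hmin⟩ := hwf.has_min {i | y ∈ N i} (hNu y)
    refine ⟨i, hi, ?_⟩
    intro hcon
    obtain ⟨j, hj, hyj⟩ := mem_iUnion₂.mp hcon
    exact hmin j hyj hj

/-- A clopen set all of whose nonempty clopen subsets are retracts of homogeneous compacta. -/
def GoodSet {X : Type u} [TopologicalSpace X] (E : Set X) : Prop :=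
  IsClopen E ∧ ∀ E' : Set X, E' ⊆ E → IsClopen E' → E'.Nonempty → InR E'

theorem GoodSet.union {X : Type u} [TopologicalSpace X] [CompactSpace X] [T2Space X] {A B : Set X}
    (hA : GoodSet A) (hB : GoodSet B) : GoodSet (A ∪ B) := by
  refine ⟨hA.1.union hB.1, ?_⟩
  intro E hE hEc hEn
  have h1 : IsClopen (E ∩ A) := hEc.inter hA.1
  have h2 : IsClopen (E \ A) := hEc.diff hA.1
  have h3 : E \ A ⊆ B := fun x hx => (hE hx.1).resolve_left hx.2
  by_cases h4 : (E ∩ A).Nonempty
  · by_cases h5 : (E \ A).Nonempty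
    · have h6 : InR ↥((E ∩ A) ∪ (E \ A)) :=
        InR.union h1.isClosed h2.isClosed
          (Set.disjoint_left.mpr (fun x hx hx' => hx'.2 hx.2)) h4 h5
          (hA.2 _ inter_subset_right h1 h4) (hB.2 _ h3 h2 h5)
      have h7 : (E ∩ A) ∪ (E \ A) = E := inter_union_sdiff E A
      rwa [h7] at h6
    · have h6 : E ⊆ A := by
        intro x hx
        by_contra hcon
        exact h5 ⟨x, hx, hcon⟩
      exact hA.2 E h6 hEc hEn
  · have h6 : E ⊆ B := by
      intro x hx
      refine h3 ⟨hx, fun hxA => h4 ⟨x, hx, hxA⟩⟩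
    exact hB.2 E h6 hEc hEn

theorem GoodSet.empty {X : Type u} [TopologicalSpace X] : GoodSet (∅ : Set X) := by
  refine ⟨isClopen_empty, fun E hE _ hn => ?_⟩
  obtain ⟨x, hx⟩ := hn
  exact absurd (hE hx) (notMem_empty x)

theorem inR_of_subset {X : Type u} [TopologicalSpace X] [CompactSpace X] [T2Space X] {E : Set X}
    (hE : IsClopen E) (hn : E.Nonempty) (h : ∀ x ∈ E, ∃ A, GoodSet A ∧ x ∈ A) : InR E := by
  classical
  choose! A hA hxA using h
  obtain ⟨T, hTE, hT⟩ := hE.isClosed.isCompact.elim_nhds_subcover A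
    (fun x hx => (hA x hx).1.isOpen.mem_nhds (hxA x hx))
  have key : ∀ T : Finset X, (∀ x ∈ T, x ∈ E) → GoodSet (⋃ x ∈ T, A x) := by
    intro T
    induction T using Finset.induction_on with
    | empty =>
      intro _
      simpa using GoodSet.empty
    | insert a T _ ih =>
      intro h
      rw [Finset.set_biUnion_insert]
      exact (hA a (h a (Finset.mem_insert_self a T))).union
        (ih (fun x hx => h x (Finset.mem_insert_of_mem hx)))
  exact (key T hTE).2 E hT hE hn

theorem inR_scattered (X : Type u) [TopologicalSpace X] [CompactSpace X] [T2Space X] [Nonempty X]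
    (hs : Scattered X) (hc : #X ≤ 𝔠) (hp : ∀ x : X, ParacompactSpace {y : X // y ≠ x}) :
    InR X := by
  haveI := hs.totallyDisconnected
  have hall : ∀ x : X, ∃ A, GoodSet A ∧ x ∈ A := by
    by_contra hcon
    push Not at hcon
    obtain ⟨p, hpS, U, hU, hUS⟩ := hs {x | ∀ A, GoodSet A → x ∉ A} hcon
    have hpU : p ∈ U := by
      have : p ∈ U ∩ {x | ∀ A, GoodSet A → x ∉ A} := by rw [hUS]; rfl
      exact this.1
    obtain ⟨E, hE, hpE, hEU⟩ := compact_exists_isClopen_in_isOpen hU hpU
    have hEgood : ∀ x ∈ E, x ≠ p → ∃ A, GoodSet A ∧ x ∈ A := by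
      intro x hx hxp
      by_contra hcon'
      push Not at hcon'
      have : x ∈ U ∩ {x | ∀ A, GoodSet A → x ∉ A} := ⟨hEU hx, hcon'⟩
      rw [hUS] at this
      exact hxp this
    refine hpS E ⟨hE, ?_⟩ hpE
    intro E' hE'E hE' hE'n
    by_cases hpE' : p ∈ E'
    swap
    · exact inR_of_subset hE' hE'n
        (fun x hx => hEgood x (hE'E hx) (fun h => hpE' (h ▸ hx)))
    -- partition
    haveI := hp p
    have hopen : IsOpenEmbedding (Subtype.val : {y : X // y ≠ p} → X) :=
      (isOpen_compl_singleton (x := p)).isOpenEmbedding_subtypeVal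
    obtain ⟨W, hWo, hWc, hWd, hWu⟩ := exists_partition (Y := {y : X // y ≠ p}) (by
      intro y G hG hyG
      have h1 : IsOpen (Subtype.val '' G) := hopen.isOpenMap G hG
      obtain ⟨C, hC, hyC, hCG⟩ := compact_exists_isClopen_in_isOpen h1 (mem_image_of_mem _ hyG)
      refine ⟨Subtype.val ⁻¹' C, hC.isOpen.preimage continuous_subtype_val, ?_, hyC, ?_⟩
      · rw [hopen.isInducing.isCompact_preimage_iff (hCG.trans (image_subset_range _ _))]
        exact hC.isClosed.isCompact
      · intro z hz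
        obtain ⟨w, hw, hwz⟩ := hCG hz
        rwa [← Subtype.ext hwz])
    let EE : {y : X // y ≠ p} → Set X := fun i => (Subtype.val '' (W i)) ∩ E'
    have hEEc : ∀ i, IsClopen (EE i) := fun i =>
      IsClopen.inter ⟨((hWc i).image continuous_subtype_val).isClosed, hopen.isOpenMap _ (hWo i)⟩ hE'
    have hEEp : ∀ i, p ∉ EE i := by
      rintro i ⟨⟨y, -, hy⟩, -⟩
      exact y.2 hy
    let I := {i : {y : X // y ≠ p} // (EE i).Nonempty}
    refine InR.onePoint (x0 := p) hE'.isClosed.isCompact hpE' (ι := I) ?_ (fun i => EE i.1)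
      (fun i => hEEc i.1) (fun i => i.2) ?_ (fun i => hEEp i.1) (fun i => inter_subset_right) ?_ ?_
    · exact ((mk_subtype_le _).trans (mk_subtype_le _)).trans hc
    · intro i j hij
      rw [Set.disjoint_left]
      rintro x ⟨⟨y, hy, hyx⟩, -⟩ ⟨⟨z, hz, hzx⟩, -⟩
      have h1 : y = z := Subtype.ext (hyx.trans hzx.symm)
      subst h1
      exact Set.disjoint_left.mp (hWd i.1 j.1 (fun h => hij (Subtype.ext h))) hy hz
    · intro x hx hxp
      obtain ⟨i, hi⟩ := hWu ⟨x, hxp⟩
      have h1 : x ∈ EE i := ⟨⟨⟨x, hxp⟩, hi, rfl⟩, hx⟩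
      exact ⟨⟨i, ⟨x, h1⟩⟩, h1⟩
    · intro i
      refine inR_of_subset (hEEc i.1) i.2 (fun x hx => hEgood x (hE'E hx.2) ?_)
      intro h
      exact hEEp i.1 (h ▸ hx)
  have h1 : InR ↥(univ : Set X) :=
    inR_of_subset isClopen_univ univ_nonempty (fun x _ => hall x)
  exact h1.homeo (Homeomorph.Set.univ X)

end Pool.Agent.Helper68.TE
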